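import Pool.Agent.Q189.ST.Span

/-!
# Independence outside a countable set of real numbers
-/

set_option autoImplicit false

open Filter Topology

namespace Pool.Agent.Q189.ST

open Pool.Agent.Y119.ML (adm adm_tail JJ WI S)
open Pool.Agent.Q189.Z3 (L B1w)
open Pool.Agent.Q189.MV (V V_nil Tz fd_Tz Ind pp exists_good)

lemma an_V (w : List (Option (Fin 1))) {x : ℝ} (hx : |x| < 1) : AnalyticAt ℝ (V w) x := by
  set c : ℕ → ℝ := fun m => ((PowerSeries.coeff m (L w) : ℚ) : ℝ) with hc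
  set p : FormalMultilinearSeries ℝ ℝ ℝ := FormalMultilinearSeries.ofScalars ℝ c with hp
  have hr : ((1 : NNReal) : ENNReal) ≤ p.radius := by
    refine p.le_radius_of_bound 1 fun n => ?_
    rw [NNReal.coe_one, one_pow, mul_one, hp, FormalMultilinearSeries.ofScalars_norm]
    exact B1w w n
  have h0 : 0 < p.radius := lt_of_lt_of_le (by norm_num) hr
  have h1 := p.hasFPowerSeriesOnBall h0
  have h2 : x ∈ Metric.eball (0 : ℝ) p.radius := by
    refine Metric.eball_subset_eball hr ?_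
    rw [Metric.mem_eball, edist_zero_right, Real.enorm_eq_ofReal_abs]
    rw [ENNReal.coe_one, ← ENNReal.ofReal_one]
    exact (ENNReal.ofReal_lt_ofReal_iff (by norm_num)).2 hx
  have h3 := h1.analyticAt_of_mem h2
  have h4 : p.sum = V w := by
    funext y
    rw [hp]
    show FormalMultilinearSeries.ofScalarsSum c y = _
    rw [FormalMultilinearSeries.ofScalars_sum_eq]
    rfl
  rwa [h4] at h3

lemma an_pp {N : ℕ} (b : JJ 1 N) {x : ℝ} (hx : 0 < x) (hx1 : x < 1) : AnalyticAt ℝ (fun x => pp x b) x := by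
  unfold pp
  exact ((analyticAt_log hx).pow _).mul (an_V _ (by rw [abs_of_pos hx]; exact hx1))

lemma ctble_zeros {g : ℝ → ℝ} (hg : AnalyticOnNhd ℝ g (Set.Ioo 0 1)) {x₀ : ℝ} (hx₀ : x₀ ∈ Set.Ioo (0 : ℝ) 1) (h : g x₀ ≠ 0) :
    (g ⁻¹' {0} ∩ Set.Ioo (0 : ℝ) 1).Countable := by
  have h1 := hg.preimage_zero_mem_codiscreteWithin h hx₀ ⟨⟨x₀, hx₀⟩, isPreconnected_Ioo⟩
  exact (HereditarilyLindelofSpace.isLindelof _).countable_of_isDiscrete (isDiscrete_of_codiscreteWithin h1)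

lemma ctble_Tz (N : ℕ) : Countable (Tz N) := by
  have := fd_Tz N
  exact (Module.finBasis ℚ (Tz N)).equivFun.toEquiv.countable_iff.2 inferInstance

theorem ctble_bad (N : ℕ) : {x : ℝ | 0 < x ∧ x < 1 ∧ ¬ Ind x N}.Countable := by
  classical
  have := ctble_Tz N
  obtain ⟨n, hn, hI⟩ := exists_good N
  have hn' := Pool.Agent.Q189.MV.inv_pos_lt (show 2 ≤ n by omega)
  set B : {z : JJ 1 N → Tz N // z ≠ 0} → Set ℝ := fun z =>
    (fun x => ∑ b, (z.1 b : ℝ) * pp x b) ⁻¹' {0} ∩ Set.Ioo (0 : ℝ) 1 with hB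
  have h1 : ∀ z, (B z).Countable := by
    intro z
    refine ctble_zeros (x₀ := 1 / n) (fun x hx => ?_) hn' fun h0 => z.2 ?_
    · refine Finset.analyticAt_fun_sum _ fun b _ => ?_
      exact analyticAt_const.mul (an_pp b hx.1 hx.2)
    · have h2 := hI (fun b => (z.1 b : ℝ)) (fun b => (z.1 b).2) h0
      funext b
      exact Subtype.ext (congrFun h2 b)
  refine (Set.countable_iUnion h1).mono ?_
  rintro x ⟨hx, hx1, hx2⟩
  unfold Ind at hx2
  push_neg at hx2
  obtain ⟨z, hz, hs, hz0⟩ := hx2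
  rw [Set.mem_iUnion]
  refine ⟨⟨fun b => ⟨z b, hz b⟩, fun h => hz0 ?_⟩, hs, hx, hx1⟩
  funext b
  exact congrArg Subtype.val (congrFun h b)

theorem ctble_all : {x : ℝ | 0 < x ∧ x < 1 ∧ ¬ ∀ N, Ind x N}.Countable := by
  refine (Set.countable_iUnion ctble_bad).mono ?_
  rintro x ⟨hx, hx1, hx2⟩
  rw [not_forall] at hx2
  obtain ⟨N, hN⟩ := hx2
  exact Set.mem_iUnion.2 ⟨N, hx, hx1, hN⟩

end Pool.Agent.Q189.ST
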