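import Mathlib

/-!
# The shuffle algebra on two letters (adapted from `Pool.Agent.H249.MZ.Sh`)
-/

set_option autoImplicit false

namespace Pool.Agent.Q189.ST

/-- Rational combinations of words in the letters `false`, `true`. -/
def Sh : Type := List Bool →₀ ℚ

noncomputable instance : AddCommGroup Sh := inferInstanceAs (AddCommGroup (List Bool →₀ ℚ))
noncomputable instance : Module ℚ Sh := inferInstanceAs (Module ℚ (List Bool →₀ ℚ))

/-- the word `w` as an element of the shuffle algebra -/
noncomputable def word (w : List Bool) : Sh := (Finsupp.single w 1 : List Bool →₀ ℚ)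

/-- put the letter `a` in front of all words -/
noncomputable def cons (a : Bool) : Sh →ₗ[ℚ] Sh :=
  (Finsupp.lmapDomain ℚ ℚ (fun w : List Bool => a :: w) : (List Bool →₀ ℚ) →ₗ[ℚ] (List Bool →₀ ℚ))

/-- the linear map with given values on the words -/
noncomputable def ext {M : Type} [AddCommGroup M] [Module ℚ M] (f : List Bool → M) : Sh →ₗ[ℚ] M :=
  (Finsupp.linearCombination ℚ f : (List Bool →₀ ℚ) →ₗ[ℚ] M)

@[simp] theorem ext_word {M : Type} [AddCommGroup M] [Module ℚ M] (f : List Bool → M) (w : List Bool) :
    ext f (word w) = f w := by
  change Finsupp.linearCombination ℚ f (Finsupp.single w 1) = _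
  rw [Finsupp.linearCombination_single, one_smul]

@[simp] theorem cons_word (a : Bool) (w : List Bool) : cons a (word w) = word (a :: w) := by
  change Finsupp.mapDomain _ (Finsupp.single w (1 : ℚ)) = _
  rw [Finsupp.mapDomain_single]
  rfl

theorem Sh.induction {p : Sh → Prop} (f : Sh) (h0 : p 0) (hadd : ∀ f g, p f → p g → p (f + g))
    (hs : ∀ (c : ℚ) w, p (c • word w)) : p f := by
  refine Finsupp.induction_linear (motive := p) f h0 hadd ?_
  intro w c
  have h := hs c w
  have h2 : (c • word w : Sh) = (Finsupp.single w c : List Bool →₀ ℚ) := by
    change c • (Finsupp.single w (1 : ℚ)) = _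
    rw [Finsupp.smul_single, smul_eq_mul, mul_one]
  rw [h2] at h
  exact h

theorem lin_ext {M : Type*} [AddCommGroup M] [Module ℚ M] {f g : Sh →ₗ[ℚ] M}
    (h : ∀ w, f (word w) = g (word w)) : f = g := by
  apply LinearMap.ext
  intro x
  refine Sh.induction (p := fun x => f x = g x) x (by simp) ?_ ?_
  · intro a b ha hb; rw [map_add, map_add, ha, hb]
  · intro c w; rw [map_smul, map_smul, h]

/-- the shuffle product of two words: the first letter of each term is the first letter of one of the two words -/
noncomputable def shw : List Bool → List Bool → Sh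
  | [], v => word v
  | a :: u, [] => word (a :: u)
  | a :: u, b :: v => cons a (shw u (b :: v)) + cons b (shw (a :: u) v)
termination_by u v => u.length + v.length

/-- the shuffle product -/
noncomputable def sh : Sh →ₗ[ℚ] Sh →ₗ[ℚ] Sh := ext fun u => ext fun v => shw u v

theorem sh_word (u v : List Bool) : sh (word u) (word v) = shw u v := by
  rw [sh, ext_word, ext_word]

theorem one_sh (x : Sh) : sh (word []) x = x := by
  have h : sh (word []) = LinearMap.id := lin_ext fun w => by
    rw [sh_word, shw]
    rfl
  rw [h]
  rfl

theorem sh_one (x : Sh) : sh x (word []) = x := by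
  have h : sh.flip (word []) = LinearMap.id := lin_ext fun w => by
    rw [LinearMap.flip_apply, sh_word]
    cases w <;> rw [shw] <;> rfl
  exact congrArg (fun f : Sh →ₗ[ℚ] Sh => f x) h

theorem sh_cons_word (a b : Bool) (u v : List Bool) : sh (word (a :: u)) (word (b :: v)) =
    cons a (sh (word u) (word (b :: v))) + cons b (sh (word (a :: u)) (word v)) := by
  rw [sh_word, sh_word, sh_word, shw]

theorem sh_cons (a b : Bool) (f g : Sh) : sh (cons a f) (cons b g) =
    cons a (sh f (cons b g)) + cons b (sh (cons a f) g) := by
  have key : ∀ u : List Bool, ∀ g : Sh, sh (cons a (word u)) (cons b g) =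
      cons a (sh (word u) (cons b g)) + cons b (sh (cons a (word u)) g) := by
    intro u g
    refine Sh.induction (p := fun g => sh (cons a (word u)) (cons b g) =
      cons a (sh (word u) (cons b g)) + cons b (sh (cons a (word u)) g)) g (by simp) ?_ ?_
    · intro x y hx hy
      simp only [map_add, hx, hy]; abel
    · intro c w
      simp only [map_smul, cons_word, sh_cons_word, smul_add]
  refine Sh.induction (p := fun f => sh (cons a f) (cons b g) =
      cons a (sh f (cons b g)) + cons b (sh (cons a f) g)) f (by simp) ?_ ?_
  · intro x y hx hy
    simp only [map_add, LinearMap.add_apply, hx, hy]; abel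
  · intro c w
    simp only [map_smul, LinearMap.smul_apply, key, smul_add]

theorem comm_word : ∀ (n : ℕ) (u v : List Bool), u.length + v.length ≤ n →
    sh (word u) (word v) = sh (word v) (word u) := by
  intro n
  induction n with
  | zero =>
    intro u v h
    have h1 : u = [] := List.length_eq_zero_iff.1 (by omega)
    have h2 : v = [] := List.length_eq_zero_iff.1 (by omega)
    subst h1 h2; rfl
  | succ n ih =>
    intro u v h
    rcases u with _ | ⟨a, u⟩
    · rw [one_sh, sh_one]
    rcases v with _ | ⟨b, v⟩
    · rw [one_sh, sh_one]
    simp only [List.length_cons] at h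
    rw [sh_cons_word, sh_cons_word, ih u (b :: v) (by simp; omega), ih (a :: u) v (by simp; omega)]
    abel

theorem sh_comm (f g : Sh) : sh f g = sh g f := by
  have : sh = sh.flip := by
    apply lin_ext
    intro u
    apply lin_ext
    intro v
    exact comm_word _ u v le_rfl
  conv_lhs => rw [this]
  rfl

theorem assoc_word : ∀ (n : ℕ) (u v w : List Bool), u.length + v.length + w.length ≤ n →
    sh (sh (word u) (word v)) (word w) = sh (word u) (sh (word v) (word w)) := by
  intro n
  induction n with
  | zero =>
    intro u v w h
    have h1 : u = [] := List.length_eq_zero_iff.1 (by omega)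
    subst h1
    rw [one_sh, one_sh]
  | succ n ih =>
    intro u v w h
    rcases u with _ | ⟨a, u⟩
    · rw [one_sh, one_sh]
    rcases v with _ | ⟨b, v⟩
    · rw [one_sh, sh_one]
    rcases w with _ | ⟨c, w⟩
    · rw [sh_one, sh_one]
    simp only [List.length_cons] at h
    have i1 := ih u (b :: v) (c :: w) (by simp; omega)
    have i2 := ih (a :: u) v (c :: w) (by simp; omega)
    have i3 := ih (a :: u) (b :: v) w (by simp; omega)
    simp only [← cons_word] at i1 i2 i3 ⊢
    have L : sh (sh (cons a (word u)) (cons b (word v))) (cons c (word w))
        = cons a (sh (sh (word u) (cons b (word v))) (cons c (word w)))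
          + cons b (sh (sh (cons a (word u)) (word v)) (cons c (word w)))
          + cons c (sh (sh (cons a (word u)) (cons b (word v))) (word w)) := by
      rw [sh_cons a b (word u) (word v)]
      simp only [map_add, LinearMap.add_apply]
      rw [sh_cons a c, sh_cons b c]
      abel
    have Rr : sh (cons a (word u)) (sh (cons b (word v)) (cons c (word w)))
        = cons a (sh (word u) (sh (cons b (word v)) (cons c (word w))))
          + cons b (sh (cons a (word u)) (sh (word v) (cons c (word w))))
          + cons c (sh (cons a (word u)) (sh (cons b (word v)) (word w))) := by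
      rw [sh_cons b c, map_add, sh_cons a b, sh_cons a c, map_add, map_add]
      abel
    rw [L, Rr, i1, i2, i3]

theorem sh_assoc (f g h : Sh) : sh (sh f g) h = sh f (sh g h) := by
  refine Sh.induction (p := fun f => sh (sh f g) h = sh f (sh g h)) f (by simp) ?_ ?_
  · intro x y hx hy
    simp only [map_add, LinearMap.add_apply, hx, hy]
  intro c u
  simp only [map_smul, LinearMap.smul_apply]
  congr 1
  refine Sh.induction (p := fun g => sh (sh (word u) g) h = sh (word u) (sh g h)) g (by simp) ?_ ?_
  · intro x y hx hy
    simp only [map_add, LinearMap.add_apply, hx, hy]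
  intro c v
  simp only [map_smul, LinearMap.smul_apply]
  congr 1
  refine Sh.induction (p := fun h => sh (sh (word u) (word v)) h = sh (word u) (sh (word v) h)) h
    (by simp) ?_ ?_
  · intro x y hx hy
    simp only [map_add, hx, hy]
  intro c w
  simp only [map_smul]
  congr 1
  exact assoc_word _ u v w le_rfl

noncomputable instance : CommRing Sh :=
  { (inferInstance : AddCommGroup Sh) with
    mul := fun x y => sh x y
    one := word []
    left_distrib := fun x y z => by
      change sh x (y + z) = sh x y + sh x z
      exact map_add _ _ _
    right_distrib := fun x y z => by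
      change sh (x + y) z = sh x z + sh y z
      exact LinearMap.map_add₂ _ _ _ _
    zero_mul := fun x => by
      change sh 0 x = 0
      rw [map_zero]; rfl
    mul_zero := fun x => by
      change sh x 0 = 0
      exact map_zero _
    mul_assoc := fun x y z => sh_assoc x y z
    one_mul := fun x => one_sh x
    mul_one := fun x => sh_one x
    mul_comm := fun x y => sh_comm x y }

noncomputable instance : Algebra ℚ Sh :=
  Algebra.ofModule
    (fun r x y => by
      change sh (r • x) y = r • sh x y
      exact LinearMap.map_smul₂ _ _ _ _)
    (fun r x y => by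
      change sh x (r • y) = r • sh x y
      exact map_smul _ _ _)

theorem mul_def (x y : Sh) : x * y = sh x y := rfl
theorem one_def : (1 : Sh) = word [] := rfl

end Pool.Agent.Q189.ST
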