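import Pool.Agent.Q189.MV.Reg
import Pool.Agent.Q189.ST.Sh2

/-!
# The regularised multiple polylogarithms of all words in two letters
-/

set_option autoImplicit false

open Filter Topology

namespace Pool.Agent.Q189.ST

open Pool.Agent.Y119.ML (adm adm_tail)
open Pool.Agent.Q189.MV (V hdV V_nil fw V_lim0)

/-- the letter `false` is `dz / z`, the letter `true` is `dz / (1 - z)` -/
def lt : Bool → Option (Fin 1)
  | false => none
  | true => some 0

/-- the words with the letter `false` inserted at all places -/
def ins : List Bool → List (List Bool)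
  | [] => [[false]]
  | a :: v => (false :: a :: v) :: (ins v).map (fun w => a :: w)

/-- the value of the word `v` followed by `true` and `b` letters `false` -/
noncomputable def F : ℕ → List Bool → ℝ → ℝ
  | 0, v, x => V ((v ++ [true]).map lt) x
  | b + 1, v, x => (Real.log x * F b v x - ((ins v).map fun u => F b u x).sum) / ((b : ℝ) + 1)

/-- the differential forms -/
noncomputable def om : Bool → ℝ → ℝ
  | false, x => 1 / x
  | true, x => 1 / (1 - x)

lemma fw_lt (a : Bool) (x : ℝ) : fw (lt a) x = om a x := by cases a <;> rfl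

lemma adm_w (v : List Bool) : adm ((v ++ [true]).map lt) := by
  unfold adm
  rw [List.map_append, List.getLast?_append]
  simp [lt]

lemma F_zero (v : List Bool) (x : ℝ) : F 0 v x = V ((v ++ [true]).map lt) x := rfl

lemma F_succ (b : ℕ) (v : List Bool) (x : ℝ) :
    F (b + 1) v x = (Real.log x * F b v x - ((ins v).map fun u => F b u x).sum) / ((b : ℝ) + 1) := rfl

lemma hd_list {α : Type} (l : List α) (f g : α → ℝ → ℝ) (x : ℝ) (h : ∀ a ∈ l, HasDerivAt (f a) (g a x) x) :
    HasDerivAt (fun x => (l.map fun a => f a x).sum) ((l.map fun a => g a x).sum) x := by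
  induction l with
  | nil => simpa using hasDerivAt_const x (0 : ℝ)
  | cons a l ih =>
    simp only [List.map_cons, List.sum_cons]
    exact (h a (by simp)).add (ih fun c hc => h c (by simp [hc]))

theorem hdF (b : ℕ) : ∀ {x : ℝ}, 0 < x → x < 1 →
    (∀ (a : Bool) (v : List Bool), HasDerivAt (F b (a :: v)) (om a x * F b v x) x) ∧
    HasDerivAt (F b []) (om true x * (Real.log x ^ b / (Nat.factorial b : ℝ))) x := by
  induction b with
  | zero =>
    intro x hx hx1
    refine ⟨fun a v => ?_, ?_⟩
    · have h1 := hdV (o := lt a) (w := (v ++ [true]).map lt) (by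
        have := adm_w (a :: v)
        simpa using this) hx hx1
      rw [fw_lt] at h1
      exact h1
    · have h1 := hdV (o := some 0) (w := []) (by unfold adm; simp) hx hx1
      rw [V_nil] at h1
      simp only [pow_zero, Nat.factorial_zero, Nat.cast_one, div_one]
      exact h1
  | succ b ih =>
    intro x hx hx1
    obtain ⟨h1, h2⟩ := ih hx hx1
    have hb : (b : ℝ) + 1 ≠ 0 := by positivity
    have hlog := Real.hasDerivAt_log hx.ne'
    refine ⟨fun a v => ?_, ?_⟩
    · have h3 : HasDerivAt (fun x => ((ins (a :: v)).map fun u => F b u x).sum)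
          (om false x * F b (a :: v) x + om a x * ((ins v).map fun u => F b u x).sum) x := by
        have h4 := (h1 false (a :: v)).add (hd_list (ins v) (fun u => F b (a :: u)) (fun u x => om a x * F b u x) x
          fun u _ => h1 a u)
        refine HasDerivAt.congr_deriv (f' := om false x * F b (a :: v) x +
          ((ins v).map fun u => om a x * F b u x).sum) ?_ ?_
        · convert h4 using 1
          funext y
          show ((ins (a :: v)).map fun u => F b u y).sum = F b (false :: a :: v) y + ((ins v).map fun u => F b (a :: u) y).sum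
          rw [ins, List.map_cons, List.sum_cons, List.map_map]
          rfl
        · rw [List.sum_map_mul_left]
      have h5 := ((hlog.mul (h1 a v)).sub h3).div_const ((b : ℝ) + 1)
      refine h5.congr_deriv ?_
      have e0 : om false x = 1 / x := rfl
      rw [F_succ, e0]
      field_simp
      ring
    · have h3 : HasDerivAt (fun x => ((ins []).map fun u => F b u x).sum) (om false x * F b [] x) x := by
        have h4 := h1 false []
        convert h4 using 1
        funext y
        simp [ins]
      have h5 := ((hlog.mul h2).sub h3).div_const ((b : ℝ) + 1)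
      refine h5.congr_deriv ?_
      have e0 : om false x = 1 / x := rfl
      rw [Nat.factorial_succ, e0]
      have hf : (Nat.factorial b : ℝ) ≠ 0 := by positivity
      push_cast
      field_simp
      ring

/-- powers of the logarithm times `x` -/
lemma log_pow_mul (a : ℕ) : Tendsto (fun x : ℝ => Real.log x ^ a * x) (𝓝[>] 0) (𝓝 0) := by
  have h1 : Tendsto (fun x : ℝ => (x ^ (1 / ((a : ℝ) + 1)) * Real.log x) ^ a * x ^ (1 / ((a : ℝ) + 1))) (𝓝[>] 0) (𝓝 0) := by
    have e : (0 : ℝ) < 1 / ((a : ℝ) + 1) := by positivity
    have h2 : Tendsto (fun x : ℝ => x ^ (1 / ((a : ℝ) + 1)) * Real.log x) (𝓝[>] 0) (𝓝 0) := by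
      have := tendsto_log_mul_rpow_nhdsGT_zero e
      refine this.congr fun x => by ring
    have h3 : Tendsto (fun x : ℝ => x ^ (1 / ((a : ℝ) + 1))) (𝓝[>] 0) (𝓝 0) := by
      have := (Real.continuousAt_rpow_const 0 (1 / ((a : ℝ) + 1)) (Or.inr e.le)).tendsto
      rw [Real.zero_rpow e.ne'] at this
      exact this.mono_left nhdsWithin_le_nhds
    have h4 := (h2.pow a).mul h3
    rwa [mul_zero] at h4
  refine h1.congr' ?_
  filter_upwards [self_mem_nhdsWithin] with x hx
  have hx' : (0 : ℝ) < x := hx
  have h5 : x ^ (1 / ((a : ℝ) + 1)) ^ 1 = x ^ (1 / ((a : ℝ) + 1)) := by rw [pow_one]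
  have h6 : (x ^ (1 / ((a : ℝ) + 1))) ^ a * x ^ (1 / ((a : ℝ) + 1)) = x := by
    rw [← pow_succ, ← Real.rpow_natCast, ← Real.rpow_mul hx'.le]
    push_cast
    rw [one_div, inv_mul_cancel₀ (by positivity), Real.rpow_one]
  rw [mul_pow]
  calc (x ^ (1 / ((a : ℝ) + 1))) ^ a * Real.log x ^ a * x ^ (1 / ((a : ℝ) + 1))
      = Real.log x ^ a * ((x ^ (1 / ((a : ℝ) + 1))) ^ a * x ^ (1 / ((a : ℝ) + 1))) := by ring
    _ = Real.log x ^ a * x := by rw [h6]

lemma lim_list {α : Type} (l : List α) (f : α → ℝ → ℝ) {F : Filter ℝ} (h : ∀ a ∈ l, Tendsto (f a) F (𝓝 0)) :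
    Tendsto (fun x => (l.map fun a => f a x).sum) F (𝓝 0) := by
  induction l with
  | nil => simpa using tendsto_const_nhds
  | cons a l ih =>
    simp only [List.map_cons, List.sum_cons]
    have := (h a (by simp)).add (ih fun c hc => h c (by simp [hc]))
    rwa [add_zero] at this

theorem limF (b : ℕ) : ∀ (a : ℕ) (v : List Bool), Tendsto (fun x => Real.log x ^ a * F b v x) (𝓝[>] 0) (𝓝 0) := by
  induction b with
  | zero =>
    intro a v
    have h1 := V_lim0 (w := (v ++ [true]).map lt) (by simp)
    have h2 := (log_pow_mul a).mul h1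
    rw [zero_mul] at h2
    refine h2.congr' ?_
    filter_upwards [self_mem_nhdsWithin] with x hx
    have hx' : (0 : ℝ) < x := hx
    rw [F_zero]
    field_simp
  | succ b ih =>
    intro a v
    have h1 := ih (a + 1) v
    have h2 := lim_list (ins v) (fun u x => Real.log x ^ a * F b u x) (fun u _ => ih a u)
    have h3 := (h1.sub h2).div_const ((b : ℝ) + 1)
    simp only [sub_zero, zero_div] at h3
    refine h3.congr fun x => ?_
    rw [F_succ, List.sum_map_mul_left]
    ring

end Pool.Agent.Q189.ST
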