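import Pool.Agent.Q189.ST.Fn

/-!
# The regularised values are a homomorphism from the shuffle algebra on two letters
-/

set_option autoImplicit false

open Filter Topology

namespace Pool.Agent.Q189.ST

open Pool.Agent.Y119.ML (adm adm_tail)
open Pool.Agent.Q189.MV (V hdV V_nil fw V_lim0)

/-- words of the form `false ^ k`, or `v true false ^ b` -/
def dec : List Bool → (ℕ ⊕ (List Bool × ℕ))
  | [] => Sum.inl 0
  | a :: w => match dec w with
    | Sum.inl k => if a then Sum.inr ([], k) else Sum.inl (k + 1)
    | Sum.inr (v, b) => Sum.inr (a :: v, b)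

/-- the values of the two kinds of words -/
noncomputable def dval : (ℕ ⊕ (List Bool × ℕ)) → ℝ → ℝ
  | Sum.inl k, x => Real.log x ^ k / (Nat.factorial k : ℝ)
  | Sum.inr (v, b), x => F b v x

/-- the value of a word -/
noncomputable def f (w : List Bool) (x : ℝ) : ℝ := dval (dec w) x

lemma f_nil (x : ℝ) : f [] x = 1 := by
  show Real.log x ^ 0 / (Nat.factorial 0 : ℝ) = 1
  simp

lemma dec_rep (k : ℕ) : dec (List.replicate k false) = Sum.inl k := by
  induction k with
  | zero => rfl
  | succ k ih => rw [List.replicate_succ, dec, ih]; rfl

lemma f_rep (k : ℕ) (x : ℝ) : f (List.replicate k false) x = Real.log x ^ k / (Nat.factorial k : ℝ) := by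
  unfold f
  rw [dec_rep]
  rfl

lemma dec_app (v : List Bool) (b : ℕ) : dec (v ++ true :: List.replicate b false) = Sum.inr (v, b) := by
  induction v with
  | nil => rw [List.nil_append, dec, dec_rep]; rfl
  | cons a v ih => rw [List.cons_append, dec, ih]

lemma f_app (v : List Bool) (b : ℕ) (x : ℝ) : f (v ++ true :: List.replicate b false) x = F b v x := by
  unfold f
  rw [dec_app]
  rfl

/-- the two kinds of words -/
lemma cases_w (w : List Bool) : (∃ k, w = List.replicate k false) ∨ ∃ v b, w = v ++ true :: List.replicate b false := by
  induction w with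
  | nil => exact Or.inl ⟨0, rfl⟩
  | cons a w ih =>
    rcases ih with ⟨k, rfl⟩ | ⟨v, b, rfl⟩
    · cases a
      · exact Or.inl ⟨k + 1, rfl⟩
      · exact Or.inr ⟨[], k, rfl⟩
    · exact Or.inr ⟨a :: v, b, rfl⟩

theorem hd_f (a : Bool) (w : List Bool) {x : ℝ} (hx : 0 < x) (hx1 : x < 1) :
    HasDerivAt (f (a :: w)) (om a x * f w x) x := by
  rcases cases_w w with ⟨k, rfl⟩ | ⟨v, b, rfl⟩
  · rw [f_rep]
    cases a
    · have e : f (false :: List.replicate k false) = fun x => Real.log x ^ (k + 1) / (Nat.factorial (k + 1) : ℝ) := by
        funext y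
        exact f_rep (k + 1) y
      rw [e]
      refine (((Real.hasDerivAt_log hx.ne').pow (k + 1)).div_const (Nat.factorial (k + 1) : ℝ)).congr_deriv ?_
      have h1 : (Nat.factorial k : ℝ) ≠ 0 := by positivity
      have e0 : om false x = 1 / x := rfl
      rw [Nat.factorial_succ, e0]
      push_cast
      field_simp
    · have e : f (true :: List.replicate k false) = F k [] := by
        funext y
        exact f_app [] k y
      rw [e]
      exact (hdF k hx hx1).2
  · have e : f (a :: (v ++ true :: List.replicate b false)) = F b (a :: v) := by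
      funext y
      exact f_app (a :: v) b y
    rw [e, f_app]
    exact (hdF b hx hx1).1 a v

/-- the linear map -/
noncomputable def Pl (x : ℝ) : Sh →ₗ[ℚ] ℝ := ext fun w => f w x

lemma Pl_word (w : List Bool) (x : ℝ) : Pl x (word w) = f w x := ext_word _ _

lemma hd_cons (a : Bool) (y : Sh) {x : ℝ} (hx : 0 < x) (hx1 : x < 1) :
    HasDerivAt (fun x => Pl x (cons a y)) (om a x * Pl x y) x := by
  refine Sh.induction (p := fun y => HasDerivAt (fun x => Pl x (cons a y)) (om a x * Pl x y) x) y ?_ ?_ ?_
  · show HasDerivAt (fun x => Pl x (cons a 0)) (om a x * Pl x 0) x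
    simp only [map_zero, mul_zero]
    exact hasDerivAt_const x 0
  · intro g h hg hh
    have := hg.add hh
    refine (this.congr_of_eventuallyEq (Eventually.of_forall fun z => ?_)).congr_deriv ?_
    · show Pl z (cons a (g + h)) = Pl z (cons a g) + Pl z (cons a h)
      rw [map_add, map_add]
    · rw [map_add, mul_add]
  · intro c w
    simp only [map_smul, cons_word, Pl_word]
    have h1 := (hd_f a w hx hx1).const_smul c
    refine h1.congr_deriv ?_
    rw [mul_smul_comm]

/-- the combinations of words with the letter `true` -/
noncomputable def Mx : Submodule ℚ Sh := Submodule.span ℚ {y | ∃ w, true ∈ w ∧ y = word w}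

lemma cons_mem {a : Bool} {y : Sh} (h : y ∈ Mx) : cons a y ∈ Mx := by
  unfold Mx at h
  induction h using Submodule.span_induction with
  | mem y hy =>
    obtain ⟨w, hw, rfl⟩ := hy
    rw [cons_word]
    exact Submodule.subset_span ⟨a :: w, List.mem_cons_of_mem _ hw, rfl⟩
  | zero => rw [map_zero]; exact Submodule.zero_mem _
  | add x y _ _ hx hy => rw [map_add]; exact Submodule.add_mem _ hx hy
  | smul c x _ hx => rw [map_smul]; exact Submodule.smul_mem _ _ hx

lemma cons_true_mem (y : Sh) : cons true y ∈ Mx := by
  refine Sh.induction (p := fun y => cons true y ∈ Mx) y ?_ ?_ ?_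
  · rw [map_zero]; exact Submodule.zero_mem _
  · intro g h hg hh
    rw [map_add]; exact Submodule.add_mem _ hg hh
  · intro c w
    rw [map_smul, cons_word]
    exact Submodule.smul_mem _ _ (Submodule.subset_span ⟨true :: w, by simp, rfl⟩)

lemma sh_mem (n : ℕ) : ∀ u v : List Bool, u.length + v.length = n → (true ∈ u ∨ true ∈ v) →
    sh (word u) (word v) ∈ Mx := by
  induction n using Nat.strong_induction_on with
  | _ n ih =>
    intro u v hn h
    rcases u with _ | ⟨a, u⟩
    · rw [one_sh]
      rcases h with h | h
      · simp at h
      · exact Submodule.subset_span ⟨v, h, rfl⟩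
    · rcases v with _ | ⟨b, v⟩
      · rw [sh_one]
        rcases h with h | h
        · exact Submodule.subset_span ⟨_, h, rfl⟩
        · simp at h
      · simp only [List.length_cons] at hn
        rw [sh_cons_word]
        refine Submodule.add_mem _ ?_ ?_
        · cases a
          · refine cons_mem (ih _ (by simp only [List.length_cons]; omega) u (b :: v) rfl ?_)
            rcases h with h | h
            · exact Or.inl (by simpa using h)
            · exact Or.inr h
          · exact cons_true_mem _
        · cases b
          · refine cons_mem (ih _ (by simp only [List.length_cons]; omega) (a :: u) v rfl ?_)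
            rcases h with h | h
            · exact Or.inl h
            · exact Or.inr (by simpa using h)
          · exact cons_true_mem _

lemma lim_true (a : ℕ) {w : List Bool} (hw : true ∈ w) : Tendsto (fun x => Real.log x ^ a * f w x) (𝓝[>] 0) (𝓝 0) := by
  rcases cases_w w with ⟨k, rfl⟩ | ⟨v, b, rfl⟩
  · simp [List.mem_replicate] at hw
  · simp only [f_app]
    exact limF b a v

lemma lim_Mx {y : Sh} (h : y ∈ Mx) : Tendsto (fun x => Pl x y) (𝓝[>] 0) (𝓝 0) := by
  unfold Mx at h
  induction h using Submodule.span_induction with
  | mem y hy =>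
    obtain ⟨w, hw, rfl⟩ := hy
    simp only [Pl_word]
    have := lim_true 0 hw
    simpa using this
  | zero => simpa using tendsto_const_nhds
  | add x y _ _ hx hy =>
    simp only [map_add]
    have := hx.add hy
    rwa [add_zero] at this
  | smul c x _ hx =>
    simp only [map_smul]
    have := hx.const_smul c
    rwa [smul_zero] at this

lemma lim_prod {u v : List Bool} (h : true ∈ u ∨ true ∈ v) : Tendsto (fun x => f u x * f v x) (𝓝[>] 0) (𝓝 0) := by
  have key : ∀ u v : List Bool, true ∈ v → Tendsto (fun x => f u x * f v x) (𝓝[>] 0) (𝓝 0) := by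
    intro u v hv
    by_cases hu : true ∈ u
    · have h1 := lim_true 0 hu
      have h2 := lim_true 0 hv
      simp only [pow_zero, one_mul] at h1 h2
      have := h1.mul h2
      rwa [mul_zero] at this
    · rcases cases_w u with ⟨k, rfl⟩ | ⟨u', b, rfl⟩
      · have h1 := (lim_true k hv).div_const (Nat.factorial k : ℝ)
        rw [zero_div] at h1
        refine h1.congr fun x => ?_
        rw [f_rep]
        ring
      · simp at hu
  rcases h with h | h
  · exact (key v u h).congr fun x => by ring
  · exact key u v h

lemma sh_rep (n : ℕ) : ∀ a b : ℕ, a + b = n → sh (word (List.replicate a false)) (word (List.replicate b false)) =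
    ((Nat.choose (a + b) a : ℕ) : ℚ) • word (List.replicate (a + b) false) := by
  induction n using Nat.strong_induction_on with
  | _ n ih =>
    intro a b hn
    rcases a with _ | a
    · rw [Nat.zero_add, Nat.choose_zero_right, Nat.cast_one, one_smul]
      exact one_sh _
    · rcases b with _ | b
      · rw [Nat.add_zero, Nat.choose_self, Nat.cast_one, one_smul]
        exact sh_one _
      · rw [List.replicate_succ, List.replicate_succ, sh_cons_word, ← List.replicate_succ, ← List.replicate_succ,
          ih _ (by omega) a (b + 1) rfl, ih _ (by omega) (a + 1) b rfl, map_smul, map_smul, cons_word, cons_word,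
          ← List.replicate_succ, ← List.replicate_succ]
        have e1 : a + (b + 1) + 1 = a + 1 + (b + 1) := by ring
        have e2 : a + 1 + b + 1 = a + 1 + (b + 1) := by ring
        rw [e1, e2, ← add_smul]
        congr 1
        have e3 : a + 1 + (b + 1) = (a + b + 1) + 1 := by ring
        have e4 : a + (b + 1) = a + b + 1 := by ring
        have e5 : a + 1 + b = a + b + 1 := by ring
        rw [e3, e4, e5, Nat.choose_succ_succ (a + b + 1) a]
        push_cast
        ring

/-- the shuffle relations for all words -/
theorem f_mul (n : ℕ) : ∀ u v : List Bool, u.length + v.length = n → ∀ {x : ℝ}, 0 < x → x < 1 →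
    Pl x (sh (word u) (word v)) = f u x * f v x := by
  induction n using Nat.strong_induction_on with
  | _ n ih =>
    intro u v hn x hx hx1
    by_cases h : true ∈ u ∨ true ∈ v
    · rcases u with _ | ⟨a, u⟩
      · rw [one_sh, Pl_word, f_nil, one_mul]
      · rcases v with _ | ⟨b, v⟩
        · rw [sh_one, Pl_word, f_nil, mul_one]
        · simp only [List.length_cons] at hn
          set g : ℝ → ℝ := fun x => Pl x (sh (word (a :: u)) (word (b :: v))) - f (a :: u) x * f (b :: v) x with hg
          have hd : ∀ y ∈ Set.Ioo (0 : ℝ) 1, HasDerivAt g 0 y := by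
            intro y hy
            have h1 := (hd_cons a (sh (word u) (word (b :: v))) hy.1 hy.2).add
              (hd_cons b (sh (word (a :: u)) (word v)) hy.1 hy.2)
            have h2 := (hd_f a u hy.1 hy.2).mul (hd_f b v hy.1 hy.2)
            have h3 := h1.sub h2
            have e1 := ih (u.length + (b :: v).length) (by simp only [List.length_cons]; omega) u (b :: v) rfl hy.1 hy.2
            have e2 := ih ((a :: u).length + v.length) (by simp only [List.length_cons]; omega) (a :: u) v rfl hy.1 hy.2
            refine (h3.congr_of_eventuallyEq (Eventually.of_forall fun z => ?_)).congr_deriv ?_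
            · show Pl z (sh (word (a :: u)) (word (b :: v))) - f (a :: u) z * f (b :: v) z =
                Pl z (cons a (sh (word u) (word (b :: v)))) + Pl z (cons b (sh (word (a :: u)) (word v))) -
                  f (a :: u) z * f (b :: v) z
              rw [sh_cons_word, map_add]
            · rw [e1, e2]
              ring
          have hconst : ∀ y ∈ Set.Ioo (0 : ℝ) 1, g y = g x := by
            intro y hy
            have h1 : IsPreconnected (Set.Ioo (0 : ℝ) 1) := isPreconnected_Ioo
            exact (isOpen_Ioo.is_const_of_deriv_eq_zero h1 (fun z hz => (hd z hz).differentiableAt.differentiableWithinAt)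
              (fun z hz => (hd z hz).deriv)) hy ⟨hx, hx1⟩
          have hlim : Tendsto g (𝓝[>] 0) (𝓝 0) := by
            have h1 := (lim_Mx (sh_mem _ (a :: u) (b :: v) rfl h)).sub (lim_prod h)
            rwa [sub_zero] at h1
          have hlim2 : Tendsto g (𝓝[>] 0) (𝓝 (g x)) := by
            refine tendsto_const_nhds.congr' ?_
            filter_upwards [Ioo_mem_nhdsGT (show (0 : ℝ) < 1 by norm_num)] with y hy
            exact (hconst y hy).symm
          have h0 : g x = 0 := tendsto_nhds_unique hlim2 hlim
          have : Pl x (sh (word (a :: u)) (word (b :: v))) - f (a :: u) x * f (b :: v) x = 0 := h0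
          linarith
    · rw [not_or] at h
      rcases cases_w u with ⟨k, rfl⟩ | ⟨u', b, rfl⟩
      · rcases cases_w v with ⟨l, rfl⟩ | ⟨v', b, rfl⟩
        · rw [sh_rep _ k l rfl, map_smul, Pl_word, f_rep, f_rep, f_rep]
          have h1 := Nat.add_choose_mul_factorial_mul_factorial k l
          rw [← Nat.choose_symm_add] at h1
          have h2 : ((Nat.choose (k + l) k : ℕ) : ℝ) * (Nat.factorial k : ℝ) * (Nat.factorial l : ℝ) =
              (Nat.factorial (k + l) : ℝ) := by exact_mod_cast h1
          have hk : (Nat.factorial k : ℝ) ≠ 0 := by positivity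
          have hl : (Nat.factorial l : ℝ) ≠ 0 := by positivity
          have hkl : (Nat.factorial (k + l) : ℝ) ≠ 0 := by positivity
          rw [Rat.smul_def]
          push_cast
          rw [pow_add, ← mul_div_assoc, div_mul_div_comm, div_eq_div_iff hkl (mul_ne_zero hk hl), ← h2]
          ring
        · exact absurd (by simp) h.2
      · exact absurd (by simp) h.1

/-- the homomorphism -/
noncomputable def P (x : ℝ) (hx : 0 < x) (hx1 : x < 1) : Sh →ₐ[ℚ] ℝ :=
  AlgHom.ofLinearMap (Pl x) (by rw [one_def, Pl_word, f_nil]) (by
    intro a b
    rw [mul_def]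
    refine Sh.induction (p := fun a => Pl x (sh a b) = Pl x a * Pl x b) a (by simp) ?_ ?_
    · intro g h hg hh
      simp only [map_add, LinearMap.add_apply, hg, hh, add_mul]
    intro c u
    refine Sh.induction (p := fun b => Pl x (sh (c • word u) b) = Pl x (c • word u) * Pl x b) b (by simp) ?_ ?_
    · intro g h hg hh
      simp only [map_add, hg, hh, mul_add]
    intro d v
    simp only [map_smul, LinearMap.smul_apply]
    rw [f_mul _ u v rfl hx hx1, Pl_word, Pl_word]
    simp only [Rat.smul_def]
    ring)

lemma P_word (x : ℝ) (hx : 0 < x) (hx1 : x < 1) (w : List Bool) : P x hx hx1 (word w) = f w x := Pl_word w x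

end Pool.Agent.Q189.ST
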