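import Pool.Agent.Q189.ST.Ten
import Pool.Agent.H249.MZ.Main

/-!
# The criteria
-/

set_option autoImplicit false

open Polynomial
open scoped TensorProduct

namespace Pool.Agent.Q189.ST

open Pool.Agent.Q189.MV (V VN Tz Ind wd adm_wd len_wd Lis Lis_eq Spc Spc_eq few_of exists_good inv_pos_lt)
open Pool.Agent.H447R2.MZ (Zs)
open Pool.Agent.H249.MZ (HH deg gr_deg)

/-- the word of an index: the blocks `false ^ (a - 1) true` -/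
def idx : List ℕ → List Bool
  | [] => []
  | a :: s => List.replicate (a - 1) false ++ true :: idx s

lemma idx_lt (s : List ℕ) : (idx s).map lt = wd s := by
  induction s with
  | nil => rfl
  | cons a s ih =>
    show (List.replicate (a - 1) false ++ true :: idx s).map lt = List.replicate (a - 1) none ++ some 0 :: wd s
    rw [List.map_append, List.map_cons, ih, List.map_replicate]
    rfl

lemma lt_inj : Function.Injective lt := by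
  intro a b h
  cases a <;> cases b <;> first | rfl | (exfalso; simp [lt] at h)

lemma f_idx {s : List ℕ} (hs : ∀ a ∈ s, 1 ≤ a) {x : ℝ} (hx : 0 < x) (hx1 : x < 1) : f (idx s) x = Lis s x := by
  rw [Lis_eq s hs (by rw [abs_of_pos hx]; exact hx1)]
  obtain ⟨v, _, h2, h3⟩ := V_f (x := x) (adm_wd s)
  rw [h2]
  have : v = idx s := (List.map_injective_iff.2 lt_inj) (by rw [h3, idx_lt])
  rw [this]

lemma f_false (x : ℝ) : f [false] x = Real.log x := by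
  have := f_rep 1 x
  simpa using this

/-- the order of the summation indices reversed -/
def revE (m : ℕ) : {k : Fin m → ℕ // StrictMono k ∧ ∀ i, 0 < k i} ≃ {k : Fin m → ℕ // StrictAnti k ∧ ∀ i, 1 ≤ k i} where
  toFun k := ⟨k.1 ∘ Fin.rev, k.2.1.comp_strictAnti Fin.rev_strictAnti, fun i => k.2.2 _⟩
  invFun k := ⟨k.1 ∘ Fin.rev, k.2.1.comp Fin.rev_strictAnti, fun i => k.2.2 _⟩
  left_inv k := by
    refine Subtype.ext ?_
    funext i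
    show k.1 (Fin.rev (Fin.rev i)) = k.1 i
    rw [Fin.rev_rev]
  right_inv k := by
    refine Subtype.ext ?_
    funext i
    show k.1 (Fin.rev (Fin.rev i)) = k.1 i
    rw [Fin.rev_rev]

lemma mzv_rev (m : ℕ) (n : Fin m → ℕ) : Pool.Agent.H249.MZ.Main.mzv m n =
    ∑' k : {k : Fin m → ℕ // StrictAnti k ∧ ∀ i, 1 ≤ k i}, ∏ i, (((k.1 i : ℕ) : ℝ) ^ (n (Fin.rev i)))⁻¹ := by
  unfold Pool.Agent.H249.MZ.Main.mzv
  rw [← (revE m).tsum_eq]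
  refine tsum_congr fun k => ?_
  rw [← Equiv.prod_comp Fin.revPerm]
  rfl

lemma ZM_eq : Pool.Agent.H249.MZ.Main.Z = Zs := by
  funext w
  unfold Pool.Agent.H249.MZ.Main.Z Zs
  congr 1
  ext x
  constructor
  · rintro ⟨m, n, h1, h2, h3, rfl⟩
    refine ⟨m, n ∘ Fin.rev, fun i => h1 _, fun h => h2 _ ?_, ?_, mzv_rev m n⟩
    · rw [Fin.val_rev]
      show m - (0 + 1) + 1 = m
      omega
    · rw [← h3]
      exact Equiv.sum_comp Fin.revPerm n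
  · rintro ⟨m, n, h1, h2, h3, rfl⟩
    refine ⟨m, n ∘ Fin.rev, fun i => h1 _, fun i hi => ?_, ?_, ?_⟩
    · have h4 : Fin.rev i = ⟨0, by omega⟩ := by
        refine Fin.ext ?_
        rw [Fin.val_rev]
        show m - ((i : ℕ) + 1) = 0
        omega
      show 2 ≤ n (Fin.rev i)
      rw [h4]
      exact h2 _
    · rw [← h3]
      exact Equiv.sum_comp Fin.revPerm n
    · rw [mzv_rev]
      refine tsum_congr fun k => Finset.prod_congr rfl fun i _ => ?_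
      show (((k.1 i : ℕ) : ℝ) ^ n i)⁻¹ = (((k.1 i : ℕ) : ℝ) ^ n (Fin.rev (Fin.rev i)))⁻¹
      rw [Fin.rev_rev]

/-! ### uniqueness outside small sets -/

/-- uniqueness of the coefficients in the weights up to `N` -/
def Uniq (x : ℝ) (N : ℕ) : Prop := ∀ M ≤ N, ∀ z z' : List Bool → ℝ,
  (∀ w, w.length ≤ M → z w ∈ Zs (M - w.length)) → (∀ w, w.length ≤ M → z' w ∈ Zs (M - w.length)) →
  ∑ w ∈ words M, z w * f w x = ∑ w ∈ words M, z' w * f w x → ∀ w, w.length ≤ M → z w = z' w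

theorem uniq_of {x : ℝ} (hx : 0 < x) (hx1 : x < 1) {N : ℕ} (h : Ind x N) : Uniq x N :=
  fun _ hM _ _ hz hz' he => unique_coeff hx hx1 h hM hz hz' he

theorem uniq_ctble : ∃ S : Set ℝ, S.Countable ∧ ∀ x, x ∉ S → 0 < x → x < 1 → ∀ N, Uniq x N := by
  refine ⟨_, ctble_all, fun x hS hx hx1 N => uniq_of hx hx1 ?_⟩
  by_contra h
  exact hS ⟨hx, hx1, fun h' => h (h' N)⟩

theorem uniq_few (N : ℕ) : ∃ C c : ℝ, 0 < c ∧ ∀ T : ℕ, 1 ≤ T →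
    (({n : ℕ | 3 ≤ n ∧ n ≤ T ∧ ¬ Uniq (1 / n) N}.ncard : ℕ) : ℝ) ≤ C * (T : ℝ) ^ (1 - c) :=
  few_of fun n hn h => by
    obtain ⟨h1, h2⟩ := inv_pos_lt (show 2 ≤ n by omega)
    exact uniq_of h1 h2 h

/-! ### the criteria -/

lemma per_iff (ev : HH →ₐ[ℚ] ℝ[X]) :
    Per deg ev ↔ ∀ w, ∀ p : ℝ[X], (∃ x ∈ deg w, ev x = p) ↔ ∃ z ∈ Pool.Agent.H249.MZ.Main.Z w, monomial w z = p := by
  rw [ZM_eq]
  rfl

/-- the isomorphism of graded algebras -/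
def Q1 : Prop := ∃ ev : HH →ₐ[ℚ] ℝ[X], Per deg ev ∧ Function.Injective ev

section

variable {ev : HH →ₐ[ℚ] ℝ[X]} (hev : Per deg ev)

include hev

theorem q1_of_dims (h : ∀ N₀ : ℕ, ∃ N, N₀ ≤ N ∧ ∀ k ≤ N, Module.finrank ℚ (Zs k) = Module.finrank ℚ (deg k)) : Q1 := by
  refine ⟨ev, hev, ev_inj gr_deg.top gr_deg.fin hev fun k => ?_⟩
  obtain ⟨N, hN, h1⟩ := h k
  exact h1 k hN

theorem crit_point {x : ℝ} (hx : 0 < x) (hx1 : x < 1) (ψ : HH ⊗[ℚ] Sh →ₐ[ℚ] ℝ[X]) (h1 : Gsur deg x ψ)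
    {N : ℕ} (h2 : ∀ y ∈ K deg N, ψ y = 0 → y = 0) : ∀ k ≤ N, Module.finrank ℚ (Zs k) = Module.finrank ℚ (deg k) :=
  dims_of_psi hx hx1 gr_deg.fin (fun k => (dim_le gr_deg.fin hev k).2) h1 h2

theorem crit_one : Q1 ↔ ∃ x : ℝ, 0 < x ∧ x < 1 ∧ ∃ ψ : HH ⊗[ℚ] Sh →ₐ[ℚ] ℝ[X], Gsur deg x ψ ∧ Function.Injective ψ := by
  constructor
  · rintro ⟨ev', h1, h2⟩
    obtain ⟨S, hS, h⟩ : ∃ S : Set ℝ, S.Countable ∧ ∀ x, x ∉ S → 0 < x → x < 1 → ∀ N, Ind x N :=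
      ⟨_, ctble_all, fun x hS hx hx1 => by
        by_contra h
        exact hS ⟨hx, hx1, h⟩⟩
    obtain ⟨x, hx, hxS⟩ : ∃ x ∈ Set.Ioo (0 : ℝ) 1, x ∉ S := by
      by_contra h'
      push Not at h'
      exact (Cardinal.Real.Ioo_countable_iff.not.2 (by norm_num)) (hS.mono h')
    exact ⟨x, hx.1, hx.2, psi ev' hx.1 hx.2, psi_sur hx.1 hx.2 h1, psi_inj hx.1 hx.2 h1 gr_deg.top (h x hxS hx.1 hx.2) h2⟩
  · rintro ⟨x, hx, hx1, ψ, h1, h2⟩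
    exact q1_of_dims hev fun N => ⟨N, le_rfl, crit_point hev hx hx1 ψ h1 fun y _ h0 => h2 (by rw [h0, map_zero])⟩

theorem crit_all : Q1 ↔ ∃ S : Set ℝ, S.Countable ∧ ∀ x, x ∉ S → 0 < x → x < 1 →
    ∃ ψ : HH ⊗[ℚ] Sh →ₐ[ℚ] ℝ[X], Gsur deg x ψ ∧ Function.Injective ψ := by
  constructor
  · rintro ⟨ev', h1, h2⟩
    refine ⟨_, ctble_all, fun x hS hx hx1 => ⟨psi ev' hx hx1, psi_sur hx hx1 h1, psi_inj hx hx1 h1 gr_deg.top ?_ h2⟩⟩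
    by_contra h
    exact hS ⟨hx, hx1, h⟩
  · rintro ⟨S, hS, h⟩
    obtain ⟨x, hx, hxS⟩ : ∃ x ∈ Set.Ioo (0 : ℝ) 1, x ∉ S := by
      by_contra h'
      push Not at h'
      exact (Cardinal.Real.Ioo_countable_iff.not.2 (by norm_num)) (hS.mono h')
    exact (crit_one hev).2 ⟨x, hx.1, hx.2, h x hxS hx.1 hx.2⟩

theorem crit_int : Q1 ↔ ∀ N₀ : ℕ, ∃ N n : ℕ, N₀ ≤ N ∧ 2 ≤ n ∧
    ∃ ψ : HH ⊗[ℚ] Sh →ₐ[ℚ] ℝ[X], Gsur deg (1 / n) ψ ∧ ∀ y ∈ K deg N, ψ y = 0 → y = 0 := by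
  constructor
  · rintro ⟨ev', h1, h2⟩ N₀
    obtain ⟨n, hn, hI⟩ := exists_good N₀
    obtain ⟨hx, hx1⟩ := inv_pos_lt (show 2 ≤ n by omega)
    exact ⟨N₀, n, le_rfl, by omega, psi ev' hx hx1, psi_sur hx hx1 h1, fun y hy h0 =>
      psi_inj_K hx hx1 h1 hI le_rfl (fun k _ h _ h0 => h2 (by rw [h0, map_zero])) hy h0⟩
  · intro h
    refine q1_of_dims hev fun N₀ => ?_
    obtain ⟨N, n, hN, hn, ψ, h1, h2⟩ := h N₀
    obtain ⟨hx, hx1⟩ := inv_pos_lt hn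
    exact ⟨N, hN, crit_point hev hx hx1 ψ h1 h2⟩

theorem crit_few : Q1 ↔ ∀ N : ℕ, ∃ C c : ℝ, 0 < c ∧ ∀ T : ℕ, 1 ≤ T →
    (({n : ℕ | 3 ≤ n ∧ n ≤ T ∧ ¬ ∃ ψ : HH ⊗[ℚ] Sh →ₐ[ℚ] ℝ[X], Gsur deg (1 / n) ψ ∧
      ∀ M ≤ N, ∀ y ∈ K deg M, ψ y = 0 → y = 0}.ncard : ℕ) : ℝ) ≤ C * (T : ℝ) ^ (1 - c) := by
  constructor
  · rintro ⟨ev', h1, h2⟩ N
    refine few_of (N := N) fun n hn hI => ?_
    obtain ⟨hx, hx1⟩ := inv_pos_lt (show 2 ≤ n by omega)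
    exact ⟨psi ev' hx hx1, psi_sur hx hx1 h1, fun M hM y hy h0 =>
      psi_inj_K hx hx1 h1 hI hM (fun k _ h _ h0 => h2 (by rw [h0, map_zero])) hy h0⟩
  · intro h
    refine (crit_int hev).2 fun N₀ => ?_
    obtain ⟨C, c, hc, hf⟩ := h N₀
    obtain ⟨n, hn, h3⟩ := Pool.Agent.Q189.Z3.exists_of_few hc hf
    obtain ⟨ψ, h1, h2⟩ := not_not.1 h3
    exact ⟨N₀, n, le_rfl, by omega, ψ, h1, fun y hy h0 => h2 N₀ le_rfl y hy h0⟩

end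

end Pool.Agent.Q189.ST
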