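import Pool.Agent.Q189.ST.Hom
import Pool.Agent.Q189.MV.Out

/-!
# The span of the regularised values and their independence over the multiple zeta values
-/

set_option autoImplicit false

open Filter Topology Pointwise

namespace Pool.Agent.Q189.ST

open Pool.Agent.Y119.ML (adm adm_tail JJ WI)
open Pool.Agent.Q189.MV (V V_nil VN VN_eq PZ PZ_eq_range Tz Zs_le_Tz fd_Tz Ind Ph mem_Ph Ph_apply finrank_Ph Fm Fm_le sum_Fm wtx pp adm_nil)
open Pool.Agent.H447R2.MZ (Zs)

/-- the words of length `k` -/
def wl : ℕ → Finset (List Bool)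
  | 0 => {[]}
  | k + 1 => (wl k).image (fun w => false :: w) ∪ (wl k).image (fun w => true :: w)

lemma mem_wl (k : ℕ) : ∀ w : List Bool, w ∈ wl k ↔ w.length = k := by
  induction k with
  | zero =>
    intro w
    rw [wl, Finset.mem_singleton, List.length_eq_zero_iff]
  | succ k ih =>
    intro w
    rw [wl, Finset.mem_union, Finset.mem_image, Finset.mem_image]
    constructor
    · rintro (⟨v, hv, rfl⟩ | ⟨v, hv, rfl⟩) <;> rw [List.length_cons, (ih v).1 hv]
    · intro h
      rcases w with _ | ⟨a, v⟩
      · simp at h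
      · have hv : v ∈ wl k := (ih v).2 (by simpa using h)
        cases a
        · exact Or.inl ⟨v, hv, rfl⟩
        · exact Or.inr ⟨v, hv, rfl⟩

lemma card_wl (k : ℕ) : (wl k).card = 2 ^ k := by
  induction k with
  | zero => rfl
  | succ k ih =>
    rw [wl, Finset.card_union_of_disjoint, Finset.card_image_of_injective, Finset.card_image_of_injective, ih, pow_succ]
    · ring
    · intro a b h
      simpa using h
    · intro a b h
      simpa using h
    · rw [Finset.disjoint_left]
      intro w h1 h2
      rw [Finset.mem_image] at h1 h2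
      obtain ⟨u, _, rfl⟩ := h1
      obtain ⟨v, _, h⟩ := h2
      simp at h

/-- the words of length at most `M` -/
def words (M : ℕ) : Finset (List Bool) := (Finset.range (M + 1)).biUnion wl

lemma mem_words {M : ℕ} {w : List Bool} : w ∈ words M ↔ w.length ≤ M := by
  unfold words
  rw [Finset.mem_biUnion]
  constructor
  · rintro ⟨k, hk, hw⟩
    rw [mem_wl] at hw
    rw [Finset.mem_range] at hk
    omega
  · intro h
    exact ⟨w.length, Finset.mem_range.2 (by omega), (mem_wl _ w).2 rfl⟩

lemma sum_words {A : Type} [AddCommMonoid A] (M : ℕ) (g : List Bool → A) :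
    ∑ w ∈ words M, g w = ∑ k ∈ Finset.range (M + 1), ∑ w ∈ wl k, g w := by
  unfold words
  rw [Finset.sum_biUnion]
  intro i _ j _ hij
  rw [Function.onFun, Finset.disjoint_left]
  intro w h1 h2
  rw [mem_wl] at h1 h2
  omega

lemma card_words (M : ℕ) : (words M).card = ∑ k ∈ Finset.range (M + 1), 2 ^ k := by
  rw [Finset.card_eq_sum_ones, sum_words]
  refine Finset.sum_congr rfl fun k _ => ?_
  rw [← Finset.card_eq_sum_ones, card_wl]

/-- the elements of degree `k` of the shuffle algebra -/
noncomputable def Sk (k : ℕ) : Submodule ℚ Sh := Submodule.span ℚ {y | ∃ w : List Bool, w.length = k ∧ y = word w}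

lemma cons_Sk {a : Bool} {k : ℕ} {y : Sh} (h : y ∈ Sk k) : cons a y ∈ Sk (k + 1) := by
  unfold Sk at h
  induction h using Submodule.span_induction with
  | mem y hy =>
    obtain ⟨w, hw, rfl⟩ := hy
    rw [cons_word]
    exact Submodule.subset_span ⟨a :: w, by rw [List.length_cons, hw], rfl⟩
  | zero => rw [map_zero]; exact Submodule.zero_mem _
  | add x y _ _ hx hy => rw [map_add]; exact Submodule.add_mem _ hx hy
  | smul c x _ hx => rw [map_smul]; exact Submodule.smul_mem _ _ hx

lemma sh_Sk (n : ℕ) : ∀ u v : List Bool, u.length + v.length = n → sh (word u) (word v) ∈ Sk n := by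
  induction n using Nat.strong_induction_on with
  | _ n ih =>
    intro u v hn
    rcases u with _ | ⟨a, u⟩
    · rw [one_sh]
      exact Submodule.subset_span ⟨v, by simpa using hn, rfl⟩
    · rcases v with _ | ⟨b, v⟩
      · rw [sh_one]
        exact Submodule.subset_span ⟨a :: u, by simpa using hn, rfl⟩
      · simp only [List.length_cons] at hn
        rw [sh_cons_word]
        obtain ⟨m, rfl⟩ : ∃ m, n = m + 1 := ⟨n - 1, by omega⟩
        exact Submodule.add_mem _ (cons_Sk (ih m (by omega) u (b :: v) (by simp only [List.length_cons]; omega)))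
          (cons_Sk (ih m (by omega) (a :: u) v (by simp only [List.length_cons]; omega)))

/-- the span of the products of a power of the logarithm and an admissible word -/
noncomputable def Qk (x : ℝ) (k : ℕ) : Submodule ℚ ℝ :=
  Submodule.span ℚ {r | ∃ (e : ℕ) (w : List (Option (Fin 1))), adm w ∧ e + w.length = k ∧ r = Real.log x ^ e * V w x}

/-- the span of the values of all words -/
noncomputable def Wk (x : ℝ) (k : ℕ) : Submodule ℚ ℝ :=
  Submodule.span ℚ {r | ∃ w : List Bool, w.length = k ∧ r = f w x}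

variable {x : ℝ}

lemma log_Qk {k : ℕ} {r : ℝ} (h : r ∈ Qk x k) : Real.log x * r ∈ Qk x (k + 1) := by
  unfold Qk at h
  induction h using Submodule.span_induction with
  | mem y hy =>
    obtain ⟨e, w, h1, h2, rfl⟩ := hy
    exact Submodule.subset_span ⟨e + 1, w, h1, by omega, by ring⟩
  | zero => rw [mul_zero]; exact Submodule.zero_mem _
  | add x y _ _ hx hy => rw [mul_add]; exact Submodule.add_mem _ hx hy
  | smul c y _ hy => rw [mul_smul_comm]; exact Submodule.smul_mem _ _ hy

lemma len_ins (v : List Bool) : ∀ u ∈ ins v, u.length = v.length + 1 := by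
  induction v with
  | nil => intro u hu; simp [ins] at hu; rw [hu]; rfl
  | cons a v ih =>
    intro u hu
    rw [ins, List.mem_cons, List.mem_map] at hu
    rcases hu with rfl | ⟨w, hw, rfl⟩
    · rfl
    · rw [List.length_cons, ih w hw, List.length_cons]

lemma div_mem {M : Submodule ℚ ℝ} {r : ℝ} (h : r ∈ M) (b : ℕ) : r / ((b : ℝ) + 1) ∈ M := by
  have e : r / ((b : ℝ) + 1) = ((1 / ((b : ℚ) + 1) : ℚ)) • r := by
    rw [Rat.smul_def]
    push_cast
    ring
  rw [e]
  exact M.smul_mem _ h

lemma F_Qk (b : ℕ) : ∀ v : List Bool, F b v x ∈ Qk x (v.length + 1 + b) := by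
  induction b with
  | zero =>
    intro v
    rw [F_zero]
    exact Submodule.subset_span ⟨0, (v ++ [true]).map lt, adm_w v, by simp, by rw [pow_zero, one_mul]⟩
  | succ b ih =>
    intro v
    rw [F_succ]
    refine div_mem (Submodule.sub_mem _ (log_Qk (ih v)) (Pool.Agent.Q189.MV.list_mem _ _ fun u hu => ?_)) b
    have h1 := ih u
    rw [len_ins v u hu] at h1
    have e : v.length + 1 + b + 1 = v.length + 1 + 1 + b := by ring
    rw [e]
    exact h1

lemma f_Qk (w : List Bool) : f w x ∈ Qk x w.length := by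
  rcases cases_w w with ⟨k, rfl⟩ | ⟨v, b, rfl⟩
  · rw [f_rep, List.length_replicate]
    have h1 : Real.log x ^ k ∈ Qk x k := Submodule.subset_span ⟨k, [], adm_nil, by simp, by rw [V_nil, mul_one]⟩
    have e : Real.log x ^ k / (Nat.factorial k : ℝ) = ((1 / (Nat.factorial k : ℚ) : ℚ)) • Real.log x ^ k := by
      rw [Rat.smul_def]
      push_cast
      ring
    rw [e]
    exact Submodule.smul_mem _ _ h1
  · rw [f_app]
    have h1 := F_Qk (x := x) b v
    have e : (v ++ true :: List.replicate b false).length = v.length + 1 + b := by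
      rw [List.length_append, List.length_cons, List.length_replicate]
      ring
    rw [e]
    exact h1

lemma Wk_le : ∀ k, Wk x k ≤ Qk x k := by
  intro k
  unfold Wk
  rw [Submodule.span_le]
  rintro _ ⟨w, rfl, rfl⟩
  exact f_Qk w

lemma Pl_Wk {k : ℕ} {y : Sh} (h : y ∈ Sk k) : Pl x y ∈ Wk x k := by
  unfold Sk at h
  induction h using Submodule.span_induction with
  | mem y hy =>
    obtain ⟨w, hw, rfl⟩ := hy
    rw [Pl_word]
    exact Submodule.subset_span ⟨w, hw, rfl⟩
  | zero => rw [map_zero]; exact Submodule.zero_mem _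
  | add x y _ _ hx hy => rw [map_add]; exact Submodule.add_mem _ hx hy
  | smul c y _ hy => rw [map_smul]; exact Submodule.smul_mem _ _ hy

/-- the Boolean word of a word -/
lemma exists_bool (w : List (Option (Fin 1))) : ∃ v : List Bool, v.map lt = w := by
  induction w with
  | nil => exact ⟨[], rfl⟩
  | cons o w ih =>
    obtain ⟨v, rfl⟩ := ih
    rcases o with _ | i
    · exact ⟨false :: v, rfl⟩
    · exact ⟨true :: v, by
        have : i = 0 := Subsingleton.elim _ _
        rw [this]; rfl⟩

lemma V_f {w : List (Option (Fin 1))} (hw : adm w) : ∃ v : List Bool, v.length = w.length ∧ V w x = f v x ∧ v.map lt = w := by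
  obtain ⟨v, rfl⟩ := exists_bool w
  refine ⟨v, by simp, ?_, rfl⟩
  rcases cases_w v with ⟨k, rfl⟩ | ⟨u, b, rfl⟩
  · rcases k with _ | k
    · rw [show List.map lt (List.replicate 0 false) = [] from rfl, V_nil]
      exact (f_nil x).symm
    · exfalso
      unfold adm at hw
      rw [List.map_replicate, List.getLast?_replicate] at hw
      simp [lt] at hw
  · rcases b with _ | b
    · rw [f_app, F_zero]
      rfl
    · exfalso
      unfold adm at hw
      rw [List.map_append, List.map_cons, List.getLast?_append, List.getLast?_cons, List.map_replicate,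
        List.getLast?_replicate] at hw
      simp [lt] at hw

lemma Qk_le (hx : 0 < x) (hx1 : x < 1) (k : ℕ) : Qk x k ≤ Wk x k := by
  unfold Qk
  rw [Submodule.span_le]
  rintro _ ⟨e, w, hw, hk, rfl⟩
  obtain ⟨v, hv, hvf, -⟩ := V_f (x := x) hw
  rw [SetLike.mem_coe, hvf]
  have h1 := f_mul _ (List.replicate e false) v rfl hx hx1
  rw [f_rep] at h1
  have h2 : Pl x (sh (word (List.replicate e false)) (word v)) ∈ Wk x k := by
    refine Pl_Wk ?_
    have := sh_Sk _ (List.replicate e false) v rfl
    rw [List.length_replicate, hv, hk] at this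
    exact this
  have h3 : Real.log x ^ e * f v x = ((Nat.factorial e : ℕ) : ℚ) • Pl x (sh (word (List.replicate e false)) (word v)) := by
    rw [h1, Rat.smul_def]
    have : (Nat.factorial e : ℝ) ≠ 0 := by positivity
    push_cast
    field_simp
  rw [h3]
  exact Submodule.smul_mem _ _ h2

theorem Qk_eq (hx : 0 < x) (hx1 : x < 1) (k : ℕ) : Qk x k = Wk x k := le_antisymm (Qk_le hx hx1 k) (Wk_le k)

/-! ### combinations with coefficients in given spaces -/

/-- the combinations of the values of the words of length at most `M` -/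
noncomputable def Ps (x : ℝ) (G : ℕ → Submodule ℚ ℝ) (M : ℕ) : (∀ w : {w // w ∈ words M}, G (M - w.1.length)) →ₗ[ℚ] ℝ :=
  ∑ w : {w // w ∈ words M}, (LinearMap.mulRight ℚ (f w.1 x)).comp ((G (M - w.1.length)).subtype.comp (LinearMap.proj w))

lemma Ps_apply (G : ℕ → Submodule ℚ ℝ) (M : ℕ) (z : ∀ w : {w // w ∈ words M}, G (M - w.1.length)) :
    Ps x G M z = ∑ w : {w // w ∈ words M}, (z w : ℝ) * f w.1 x := by
  unfold Ps
  rw [LinearMap.sum_apply]
  rfl

lemma mem_Ps {G : ℕ → Submodule ℚ ℝ} {M : ℕ} {r : ℝ} : r ∈ LinearMap.range (Ps x G M) ↔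
    ∃ z : List Bool → ℝ, (∀ w, w.length ≤ M → z w ∈ G (M - w.length)) ∧ r = ∑ w ∈ words M, z w * f w x := by
  classical
  constructor
  · rintro ⟨z, rfl⟩
    refine ⟨fun w => if h : w ∈ words M then z ⟨w, h⟩ else 0, fun w hw => ?_, ?_⟩
    · have h : w ∈ words M := mem_words.2 hw
      simp only [dif_pos h]
      exact (z ⟨w, h⟩).2
    · rw [Ps_apply, ← Finset.sum_coe_sort (words M)]
      refine Finset.sum_congr rfl fun w _ => ?_
      simp only [dif_pos w.2]
  · rintro ⟨z, hz, rfl⟩
    refine ⟨fun w => ⟨z w.1, hz w.1 (mem_words.1 w.2)⟩, ?_⟩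
    rw [Ps_apply, ← Finset.sum_coe_sort (words M)]

lemma range_Ps (G : ℕ → Submodule ℚ ℝ) (M : ℕ) :
    LinearMap.range (Ps x G M) = (Finset.range (M + 1)).sup fun k => G (M - k) * Wk x k := by
  classical
  refine le_antisymm ?_ ?_
  · intro r hr
    obtain ⟨z, hz, rfl⟩ := mem_Ps.1 hr
    refine Submodule.sum_mem _ fun w hw => ?_
    have hw' := mem_words.1 hw
    exact (Finset.le_sup (f := fun k => G (M - k) * Wk x k) (Finset.mem_range.2 (by omega : w.length < M + 1)))
      (Submodule.mul_mem_mul (hz w hw') (Submodule.subset_span ⟨w, rfl, rfl⟩))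
  · refine Finset.sup_le fun k hk => ?_
    rw [Finset.mem_range] at hk
    rw [Submodule.mul_le]
    intro z hz r hr
    unfold Wk at hr
    induction hr using Submodule.span_induction with
    | mem r h =>
      obtain ⟨w, hw, rfl⟩ := h
      rw [mem_Ps]
      refine ⟨Pi.single w z, fun v hv => ?_, ?_⟩
      · by_cases hvw : v = w
        · subst hvw
          rw [Pi.single_eq_same, hw]
          exact hz
        · rw [Pi.single_eq_of_ne hvw]
          exact Submodule.zero_mem _
      · rw [Finset.sum_eq_single_of_mem w (mem_words.2 (by omega)), Pi.single_eq_same]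
        intro b _ hb
        rw [Pi.single_eq_of_ne hb, zero_mul]
    | zero => rw [mul_zero]; exact Submodule.zero_mem _
    | add x y _ _ hx hy => rw [mul_add]; exact Submodule.add_mem _ hx hy
    | smul c y _ hy => rw [mul_smul_comm]; exact Submodule.smul_mem _ _ hy

lemma range_Ph {N M : ℕ} (G : ℕ → Submodule ℚ ℝ) (hM : M ≤ N) :
    LinearMap.range (Ph x (Fm (N := N) G M)) = (Finset.range (M + 1)).sup fun k => G (M - k) * Qk x k := by
  classical
  refine le_antisymm ?_ ?_
  · intro r hr
    obtain ⟨z, hz, rfl⟩ := mem_Ph.1 hr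
    refine Submodule.sum_mem _ fun b _ => ?_
    have h1 := hz b
    unfold Fm at h1
    split_ifs at h1 with h2
    · exact (Finset.le_sup (f := fun k => G (M - k) * Qk x k) (Finset.mem_range.2 (by omega : wtx b < M + 1)))
        (Submodule.mul_mem_mul h1 (Submodule.subset_span ⟨b.1, b.2.1, b.2.2.2, rfl, rfl⟩))
    · rw [Submodule.mem_bot] at h1
      rw [h1, zero_mul]
      exact Submodule.zero_mem _
  · refine Finset.sup_le fun k hk => ?_
    rw [Finset.mem_range] at hk
    rw [Submodule.mul_le]
    intro z hz r hr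
    unfold Qk at hr
    induction hr using Submodule.span_induction with
    | mem r h =>
      obtain ⟨e, w, hw, hke, rfl⟩ := h
      rw [mem_Ph]
      set b₀ : JJ 1 N := (⟨e, by omega⟩, ⟨w, by omega, hw⟩) with hb₀
      have hwt : wtx b₀ = e + w.length := rfl
      refine ⟨Pi.single b₀ z, fun b => ?_, ?_⟩
      · by_cases hb : b = b₀
        · subst hb
          rw [Pi.single_eq_same]
          unfold Fm
          rw [if_pos (by omega), hwt, hke]
          exact hz
        · rw [Pi.single_eq_of_ne hb]
          exact Submodule.zero_mem _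
      · rw [Finset.sum_eq_single_of_mem b₀ (Finset.mem_univ _), Pi.single_eq_same]
        · rfl
        · intro b _ hb
          rw [Pi.single_eq_of_ne hb, zero_mul]
    | zero => rw [mul_zero]; exact Submodule.zero_mem _
    | add x y _ _ hx hy => rw [mul_add]; exact Submodule.add_mem _ hx hy
    | smul c y _ hy => rw [mul_smul_comm]; exact Submodule.smul_mem _ _ hy

theorem ranges (hx : 0 < x) (hx1 : x < 1) {N M : ℕ} (G : ℕ → Submodule ℚ ℝ) (hM : M ≤ N) :
    LinearMap.range (Ps x G M) = LinearMap.range (Ph x (Fm (N := N) G M)) := by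
  rw [range_Ps, range_Ph G hM]
  refine Finset.sup_congr rfl fun k _ => ?_
  rw [Qk_eq hx hx1]

/-- the elements of weight `M` as combinations of the values of the words -/
theorem VN_words (hx : 0 < x) (hx1 : x < 1) (M : ℕ) : VN x M = LinearMap.range (Ps x Zs M) := by
  rw [VN_eq hx hx1, PZ_eq_range (N := M) le_rfl, ranges hx hx1 (N := M) Zs le_rfl]

/-- **independence over the multiple zeta values** -/
theorem indW (hx : 0 < x) (hx1 : x < 1) {N : ℕ} (h : Ind x N) : Function.Injective (Ps x (fun _ => Tz N) N) := by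
  classical
  have hfd := fd_Tz N
  rw [← LinearMap.ker_eq_bot, ← Submodule.finrank_eq_zero]
  have h1 := LinearMap.finrank_range_add_finrank_ker (Ps x (fun _ => Tz N) N)
  rw [ranges hx hx1 (N := N) (fun _ => Tz N) le_rfl, finrank_Ph h (Fm_le (fun k _ => le_rfl) le_rfl),
    sum_Fm (fun _ => Tz N) le_rfl, Module.finrank_pi_fintype] at h1
  have h2 : ∑ w : {w // w ∈ words N}, Module.finrank ℚ (Tz N) =
      ∑ k ∈ Finset.range (N + 1), 2 ^ k * Module.finrank ℚ (Tz N) := by
    rw [Finset.sum_const, Finset.card_univ, Fintype.card_coe, card_words, smul_eq_mul, Finset.sum_mul]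
  omega

/-- the coefficients are unique -/
theorem unique_coeff (hx : 0 < x) (hx1 : x < 1) {N : ℕ} (h : Ind x N) {M : ℕ} (hM : M ≤ N) {z z' : List Bool → ℝ}
    (hz : ∀ w, w.length ≤ M → z w ∈ Zs (M - w.length)) (hz' : ∀ w, w.length ≤ M → z' w ∈ Zs (M - w.length))
    (he : ∑ w ∈ words M, z w * f w x = ∑ w ∈ words M, z' w * f w x) : ∀ w, w.length ≤ M → z w = z' w := by
  classical
  set y : {w // w ∈ words N} → Tz N := fun w => if hw : w.1.length ≤ M then
    ⟨z w.1 - z' w.1, Submodule.sub_mem _ (Zs_le_Tz (by omega) (hz w.1 hw)) (Zs_le_Tz (by omega) (hz' w.1 hw))⟩ else 0 with hy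
  have h1 : Ps x (fun _ => Tz N) N y = 0 := by
    rw [Ps_apply]
    have h2 : ∑ w : {w // w ∈ words N}, (y w : ℝ) * f w.1 x =
        ∑ w ∈ words N, (if w.length ≤ M then z w - z' w else 0) * f w x := by
      rw [← Finset.sum_coe_sort (words N)]
      refine Finset.sum_congr rfl fun w _ => ?_
      rw [hy]
      beta_reduce
      split_ifs <;> rfl
    rw [h2]
    have h3 : ∑ w ∈ words M, (if w.length ≤ M then z w - z' w else 0) * f w x =
        ∑ w ∈ words N, (if w.length ≤ M then z w - z' w else 0) * f w x := by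
      refine Finset.sum_subset (fun w hw => mem_words.2 ((mem_words.1 hw).trans hM)) fun w _ hw => ?_
      rw [mem_words] at hw
      rw [if_neg hw, zero_mul]
    rw [← h3]
    have h4 : ∑ w ∈ words M, (if w.length ≤ M then z w - z' w else 0) * f w x =
        ∑ w ∈ words M, (z w * f w x - z' w * f w x) := by
      refine Finset.sum_congr rfl fun w hw => ?_
      rw [if_pos (mem_words.1 hw), sub_mul]
    rw [h4, Finset.sum_sub_distrib, he, sub_self]
  have h2 : y = 0 := indW hx hx1 h (by rw [h1, map_zero])
  intro w hw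
  have h3 := congrFun h2 ⟨w, mem_words.2 (hw.trans hM)⟩
  rw [hy] at h3
  simp only [dif_pos hw] at h3
  have h4 := congrArg Subtype.val h3
  have h5 : z w - z' w = 0 := h4
  linarith

end Pool.Agent.Q189.ST
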