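import Pool.Agent.Q189.ST.Ana
import Pool.Agent.Q189.MV.Out

/-!
# The algebra of the values and the tensor product with the shuffle algebra
-/

set_option autoImplicit false

open Polynomial
open scoped TensorProduct

namespace Pool.Agent.Q189.ST

open Pool.Agent.Q189.MV (V VN Tz Zs_le_Tz fd_Tz Ind finrank_VN_le eq_of_sum)
open Pool.Agent.H447R2.MZ (Zs)

/-- the linear map to the polynomials -/
noncomputable def Xl (x : ℝ) : Sh →ₗ[ℚ] ℝ[X] := ext fun w => monomial w.length (f w x)

lemma Xl_word (x : ℝ) (w : List Bool) : Xl x (word w) = monomial w.length (f w x) := ext_word _ _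

lemma Xl_Sk {x : ℝ} {k : ℕ} {y : Sh} (h : y ∈ Sk k) : Xl x y = monomial k (Pl x y) := by
  unfold Sk at h
  induction h using Submodule.span_induction with
  | mem y hy =>
    obtain ⟨w, hw, rfl⟩ := hy
    rw [Xl_word, Pl_word, hw]
  | zero => simp
  | add x y _ _ hx hy => rw [map_add, map_add, map_add, hx, hy]
  | smul c y _ hy => rw [map_smul, map_smul, hy, smul_monomial]

/-- the homomorphism of graded algebras -/
noncomputable def PX (x : ℝ) (hx : 0 < x) (hx1 : x < 1) : Sh →ₐ[ℚ] ℝ[X] :=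
  AlgHom.ofLinearMap (Xl x) (by rw [one_def, Xl_word, f_nil]; rfl) (by
    intro a b
    rw [mul_def]
    refine Sh.induction (p := fun a => Xl x (sh a b) = Xl x a * Xl x b) a (by simp) ?_ ?_
    · intro g h hg hh
      simp only [map_add, LinearMap.add_apply, hg, hh, add_mul]
    intro c u
    refine Sh.induction (p := fun b => Xl x (sh (c • word u) b) = Xl x (c • word u) * Xl x b) b (by simp) ?_ ?_
    · intro g h hg hh
      simp only [map_add, hg, hh, mul_add]
    intro d v
    simp only [map_smul, LinearMap.smul_apply]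
    rw [Xl_Sk (sh_Sk _ u v rfl), f_mul _ u v rfl hx hx1, Xl_word, Xl_word, ← monomial_mul_monomial, smul_mul_assoc,
      mul_smul_comm, smul_comm])

lemma PX_word (x : ℝ) (hx : 0 < x) (hx1 : x < 1) (w : List Bool) : PX x hx hx1 (word w) = monomial w.length (f w x) :=
  Xl_word x w

/-- a linear map which is injective on the parts of a grading -/
lemma inj_of_parts {B : Type} [AddCommGroup B] [Module ℚ B] {K : ℕ → Submodule ℚ B} (htop : ⨆ k, K k = ⊤)
    {ψ : B →ₗ[ℚ] ℝ[X]} (hom : ∀ M, ∀ y ∈ K M, ∃ r : ℝ, ψ y = monomial M r) (h : ∀ M, ∀ y ∈ K M, ψ y = 0 → y = 0) :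
    Function.Injective ψ := by
  rw [← LinearMap.ker_eq_bot, LinearMap.ker_eq_bot']
  intro y hy
  have h1 : y ∈ ⨆ k, K k := htop ▸ Submodule.mem_top
  obtain ⟨g, hg, rfl⟩ := (Submodule.mem_iSup_iff_exists_finsupp K y).1 h1
  have h2 : ∀ M, g M = 0 := by
    intro M
    refine h M _ (hg M) ?_
    obtain ⟨r, hr⟩ := hom M _ (hg M)
    have h3 : (ψ (g.sum fun _ b => b)).coeff M = r := by
      rw [Finsupp.sum, map_sum, finset_sum_coeff, Finset.sum_eq_single M]
      · rw [hr, coeff_monomial_same]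
      · intro k _ hk
        obtain ⟨r', hr'⟩ := hom k _ (hg k)
        rw [hr', coeff_monomial_of_ne _ hk.symm]
      · intro hM
        rw [Finsupp.notMem_support_iff.1 hM, map_zero, coeff_zero]
    rw [hr, ← h3, hy, coeff_zero, map_zero]
  have h4 : g = 0 := Finsupp.ext h2
  rw [h4, Finsupp.sum_zero_index]

section Tensor

variable {A : Type} [CommRing A] [Algebra ℚ A] (G : ℕ → Submodule ℚ A)

/-- the part of degree `M` of the tensor product -/
noncomputable def K (M : ℕ) : Submodule ℚ (A ⊗[ℚ] Sh) :=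
  Submodule.span ℚ {y | ∃ (i : ℕ) (h : A) (w : List Bool), h ∈ G i ∧ i + w.length = M ∧ y = h ⊗ₜ[ℚ] word w}

/-- the coordinates -/
noncomputable def crd : A ⊗[ℚ] Sh ≃ₗ[ℚ] (List Bool →₀ A) :=
  (TensorProduct.finsuppScalarRight ℚ ℚ A (List Bool) : A ⊗[ℚ] (List Bool →₀ ℚ) ≃ₗ[ℚ] (List Bool →₀ A))

lemma crd_tmul (h : A) (w v : List Bool) : crd (h ⊗ₜ[ℚ] word w) v = if w = v then h else 0 := by
  show (TensorProduct.finsuppScalarRight ℚ ℚ A (List Bool)) (h ⊗ₜ[ℚ] (Finsupp.single w (1 : ℚ))) v = _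
  rw [TensorProduct.finsuppScalarRight_apply_tmul_apply, Finsupp.single_apply]
  split_ifs <;> simp

/-- combinations of words with coefficients in `A` -/
noncomputable def Th (M : ℕ) : (∀ w : {w // w ∈ words M}, G (M - w.1.length)) →ₗ[ℚ] A ⊗[ℚ] Sh :=
  ∑ w : {w // w ∈ words M}, ((TensorProduct.mk ℚ A Sh).flip (word w.1)).comp
    ((G (M - w.1.length)).subtype.comp (LinearMap.proj w))

lemma Th_apply (M : ℕ) (z : ∀ w : {w // w ∈ words M}, G (M - w.1.length)) :
    Th G M z = ∑ w : {w // w ∈ words M}, (z w : A) ⊗ₜ[ℚ] word w.1 := by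
  unfold Th
  rw [LinearMap.sum_apply]
  rfl

lemma crd_Th (M : ℕ) (z : ∀ w : {w // w ∈ words M}, G (M - w.1.length)) (w : {w // w ∈ words M}) :
    crd (Th G M z) w.1 = z w := by
  classical
  rw [Th_apply, map_sum, Finsupp.finset_sum_apply, Finset.sum_eq_single_of_mem w (Finset.mem_univ _)]
  · rw [crd_tmul, if_pos rfl]
  · intro v _ hv
    rw [crd_tmul, if_neg fun h => hv (Subtype.ext h)]

lemma Th_inj (M : ℕ) : Function.Injective (Th G M) := by
  intro z z' h
  funext w
  refine Subtype.ext ?_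
  rw [← crd_Th, ← crd_Th, h]

lemma range_Th (M : ℕ) : LinearMap.range (Th G M) = K G M := by
  classical
  refine le_antisymm ?_ ?_
  · rintro _ ⟨z, rfl⟩
    rw [Th_apply]
    refine Submodule.sum_mem _ fun w _ => Submodule.subset_span ⟨M - w.1.length, z w, w.1, (z w).2, ?_, rfl⟩
    have := mem_words.1 w.2
    omega
  · unfold K
    rw [Submodule.span_le]
    rintro _ ⟨i, h, w, hh, hi, rfl⟩
    have hw : w ∈ words M := mem_words.2 (by omega)
    have hh' : h ∈ G (M - w.length) := by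
      rw [show M - w.length = i by omega]
      exact hh
    refine ⟨Pi.single ⟨w, hw⟩ ⟨h, hh'⟩, ?_⟩
    rw [Th_apply, Finset.sum_eq_single_of_mem ⟨w, hw⟩ (Finset.mem_univ _), Pi.single_eq_same]
    intro b _ hb
    rw [Pi.single_eq_of_ne hb, Submodule.coe_zero, TensorProduct.zero_tmul]

theorem finrank_K (hfin : ∀ k, FiniteDimensional ℚ (G k)) (M : ℕ) :
    Module.finrank ℚ (K G M) = ∑ k ∈ Finset.range (M + 1), 2 ^ k * Module.finrank ℚ (G (M - k)) := by
  rw [← range_Th, LinearMap.finrank_range_of_inj (Th_inj G M), Module.finrank_pi_fintype,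
    Finset.sum_coe_sort (words M) (fun w => Module.finrank ℚ (G (M - w.length))), sum_words]
  refine Finset.sum_congr rfl fun k _ => ?_
  rw [Finset.sum_congr rfl (g := fun _ => Module.finrank ℚ (G (M - k))) (fun w hw => by rw [(mem_wl k w).1 hw]),
    Finset.sum_const, card_wl, smul_eq_mul]

lemma K_top (htop : ⨆ k, G k = ⊤) : ⨆ M, K G M = ⊤ := by
  rw [eq_top_iff]
  rintro y -
  induction y using TensorProduct.induction_on with
  | zero => exact Submodule.zero_mem _
  | add a b ha hb => exact Submodule.add_mem _ ha hb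
  | tmul a s =>
    refine Sh.induction (p := fun s => a ⊗ₜ[ℚ] s ∈ ⨆ M, K G M) s ?_ ?_ ?_
    · rw [TensorProduct.tmul_zero]; exact Submodule.zero_mem _
    · intro f g hf hg
      rw [TensorProduct.tmul_add]
      exact Submodule.add_mem _ hf hg
    · intro c w
      rw [TensorProduct.tmul_smul]
      refine Submodule.smul_mem _ _ ?_
      have ha : a ∈ ⨆ k, G k := htop ▸ Submodule.mem_top
      refine Submodule.iSup_induction G (motive := fun a => a ⊗ₜ[ℚ] word w ∈ ⨆ M, K G M) ha (fun i h hh => ?_) ?_ ?_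
      · exact Submodule.mem_iSup_of_mem (i + w.length) (Submodule.subset_span ⟨i, h, w, hh, rfl, rfl⟩)
      · rw [TensorProduct.zero_tmul]; exact Submodule.zero_mem _
      · intro a b ha hb
        rw [TensorProduct.add_tmul]
        exact Submodule.add_mem _ ha hb

variable (ev : A →ₐ[ℚ] ℝ[X]) {x : ℝ} (hx : 0 < x) (hx1 : x < 1)

/-- the homomorphism on the tensor product -/
noncomputable def psi : A ⊗[ℚ] Sh →ₐ[ℚ] ℝ[X] := Algebra.TensorProduct.lift ev (PX x hx hx1) (fun _ _ => Commute.all _ _)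

lemma psi_tmul (h : A) (w : List Bool) : psi ev hx hx1 (h ⊗ₜ[ℚ] word w) = ev h * monomial w.length (f w x) := by
  unfold psi
  rw [Algebra.TensorProduct.lift_tmul, PX_word]

/-- a homomorphism of graded algebras onto the algebra of the polynomials with coefficients in `VN x` -/
def Gsur (x : ℝ) (ψ : A ⊗[ℚ] Sh →ₐ[ℚ] ℝ[X]) : Prop :=
  ∀ (M : ℕ) (p : ℝ[X]), (∃ y ∈ K G M, ψ y = p) ↔ ∃ v ∈ VN x M, monomial M v = p

/-- the same for the multiple zeta values -/
def Per (ev : A →ₐ[ℚ] ℝ[X]) : Prop := ∀ (w : ℕ) (p : ℝ[X]), (∃ h ∈ G w, ev h = p) ↔ ∃ z ∈ Zs w, monomial w z = p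

variable {G} {ev}

include hx hx1 in
lemma word_VN {M : ℕ} {z : ℝ} {w : List Bool} (hw : w.length ≤ M) (hz : z ∈ Zs (M - w.length)) : z * f w x ∈ VN x M := by
  rw [VN_words hx hx1, range_Ps]
  exact (Finset.le_sup (f := fun k => Zs (M - k) * Wk x k) (Finset.mem_range.2 (by omega : w.length < M + 1)))
    (Submodule.mul_mem_mul hz (Submodule.subset_span ⟨w, rfl, rfl⟩))

lemma psi_K (hev : Per G ev) (M : ℕ) {y : A ⊗[ℚ] Sh} (hy : y ∈ K G M) : ∃ v ∈ VN x M, monomial M v = psi ev hx hx1 y := by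
  unfold K at hy
  induction hy using Submodule.span_induction with
  | mem y h =>
    obtain ⟨i, h, w, hh, hi, rfl⟩ := h
    obtain ⟨z, hz, hzh⟩ := (hev i _).1 ⟨h, hh, rfl⟩
    have hwM : w.length ≤ M := by omega
    refine ⟨z * f w x, word_VN hx hx1 hwM ?_, ?_⟩
    · rw [show M - w.length = i by omega]
      exact hz
    · rw [psi_tmul, ← hzh, monomial_mul_monomial, hi]
  | zero => exact ⟨0, Submodule.zero_mem _, by simp⟩
  | add a b _ _ ha hb =>
    obtain ⟨u, hu, hu'⟩ := ha
    obtain ⟨v, hv, hv'⟩ := hb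
    exact ⟨u + v, Submodule.add_mem _ hu hv, by rw [map_add, map_add, hu', hv']⟩
  | smul c a _ ha =>
    obtain ⟨u, hu, hu'⟩ := ha
    exact ⟨c • u, Submodule.smul_mem _ _ hu, by rw [map_smul (psi ev hx hx1), ← hu', smul_monomial]⟩

theorem psi_sur (hev : Per G ev) : Gsur G x (psi ev hx hx1) := by
  intro M p
  constructor
  · rintro ⟨y, hy, rfl⟩
    exact psi_K hx hx1 hev M hy
  · rintro ⟨v, hv, rfl⟩
    rw [VN_words hx hx1, mem_Ps] at hv
    obtain ⟨z, hz, rfl⟩ := hv
    have h1 : ∀ w : {w // w ∈ words M}, ∃ h ∈ G (M - w.1.length), ev h = monomial (M - w.1.length) (z w.1) := fun w =>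
      (hev _ _).2 ⟨z w.1, hz w.1 (mem_words.1 w.2), rfl⟩
    choose h hh hz' using h1
    refine ⟨∑ w : {w // w ∈ words M}, h w ⊗ₜ[ℚ] word w.1, Submodule.sum_mem _ fun w _ =>
      Submodule.subset_span ⟨_, h w, w.1, hh w, ?_, rfl⟩, ?_⟩
    · have := mem_words.1 w.2
      omega
    · rw [map_sum, ← Finset.sum_coe_sort (words M), map_sum]
      refine Finset.sum_congr rfl fun w _ => ?_
      have := mem_words.1 w.2
      rw [psi_tmul, hz', monomial_mul_monomial, show M - w.1.length + w.1.length = M by omega]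

theorem psi_inj_K (hev : Per G ev) {N M : ℕ} (hI : Ind x N) (hM : M ≤ N) (hinj : ∀ k ≤ M, ∀ h ∈ G k, ev h = 0 → h = 0)
    {y : A ⊗[ℚ] Sh} (hy : y ∈ K G M) (h0 : psi ev hx hx1 y = 0) : y = 0 := by
  classical
  rw [← range_Th] at hy
  obtain ⟨z, rfl⟩ := hy
  have h1 : ∀ w : {w // w ∈ words M}, ∃ r ∈ Zs (M - w.1.length), monomial (M - w.1.length) r = ev (z w : A) := fun w =>
    (hev _ _).1 ⟨_, (z w).2, rfl⟩
  choose r hr hr' using h1
  have h2 : psi ev hx hx1 (Th G M z) = monomial M (∑ w : {w // w ∈ words M}, r w * f w.1 x) := by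
    rw [Th_apply, map_sum, map_sum]
    refine Finset.sum_congr rfl fun w _ => ?_
    have := mem_words.1 w.2
    rw [psi_tmul, ← hr', monomial_mul_monomial, show M - w.1.length + w.1.length = M by omega]
  rw [h2, monomial_eq_zero_iff] at h0
  set r' : List Bool → ℝ := fun w => if h : w ∈ words M then r ⟨w, h⟩ else 0 with hr'd
  have h3 : ∑ w ∈ words M, r' w * f w x = ∑ w ∈ words M, (fun _ => (0 : ℝ)) w * f w x := by
    rw [← Finset.sum_coe_sort (words M)]
    have e : ∑ w : {w // w ∈ words M}, r' w.1 * f w.1 x = ∑ w : {w // w ∈ words M}, r w * f w.1 x := by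
      refine Finset.sum_congr rfl fun w _ => ?_
      rw [hr'd]
      simp only [dif_pos w.2]
    rw [e, h0]
    simp
  have h4 := unique_coeff hx hx1 hI hM (z := r') (z' := fun _ => 0) (fun w hw => by
    have hw' : w ∈ words M := mem_words.2 hw
    rw [hr'd]
    simp only [dif_pos hw']
    exact hr ⟨w, hw'⟩) (fun w _ => Submodule.zero_mem _) h3
  have h5 : z = 0 := by
    funext w
    have h6 := h4 w.1 (mem_words.1 w.2)
    rw [hr'd] at h6
    simp only [dif_pos w.2] at h6
    refine Subtype.ext (hinj _ (Nat.sub_le _ _) _ (z w).2 ?_)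
    rw [← hr', h6, map_zero]
  rw [h5, map_zero]

theorem psi_inj (hev : Per G ev) (htop : ⨆ k, G k = ⊤) (hI : ∀ N, Ind x N) (hinj : Function.Injective ev) :
    Function.Injective (psi ev hx hx1) := by
  have h1 : Function.Injective (psi ev hx hx1).toLinearMap := by
    refine inj_of_parts (K_top G htop) (fun M y hy => ?_) fun M y hy h0 => ?_
    · obtain ⟨v, _, hv⟩ := psi_K hx hx1 hev M hy
      exact ⟨v, hv.symm⟩
    · refine psi_inj_K hx hx1 hev (hI M) le_rfl (fun k _ h _ h0 => hinj ?_) hy h0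
      rw [h0, map_zero]
  exact h1

include hx hx1 in
/-- the dimensions from one graded isomorphism in one degree -/
theorem dims_of_psi (hfin : ∀ k, FiniteDimensional ℚ (G k)) (hle : ∀ k, Module.finrank ℚ (Zs k) ≤ Module.finrank ℚ (G k))
    {ψ : A ⊗[ℚ] Sh →ₐ[ℚ] ℝ[X]} (hψ : Gsur G x ψ) {N : ℕ} (hinj : ∀ y ∈ K G N, ψ y = 0 → y = 0) :
    ∀ k ≤ N, Module.finrank ℚ (Zs k) = Module.finrank ℚ (G k) := by
  refine eq_of_sum hle ?_
  rw [← finrank_K G hfin]
  refine le_trans (le_of_eq ?_) (finrank_VN_le hx hx1 N)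
  have h1 : Function.Injective (ψ.toLinearMap.domRestrict (K G N)) := by
    intro y y' hy
    have hy' : ψ y.1 = ψ y'.1 := hy
    have h0 := hinj (y.1 - y'.1) (Submodule.sub_mem _ y.2 y'.2) (by rw [map_sub, hy', sub_self])
    exact Subtype.ext (sub_eq_zero.1 h0)
  have h2 := LinearMap.finrank_range_of_inj h1
  rw [LinearMap.range_domRestrict] at h2
  have h3 : (K G N).map ψ.toLinearMap = (VN x N).map ((monomial N : ℝ →ₗ[ℝ] ℝ[X]).restrictScalars ℚ) := by
    ext p
    exact hψ N p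
  rw [h3] at h2
  rw [← h2]
  exact (Submodule.equivMapOfInjective ((monomial N : ℝ →ₗ[ℝ] ℝ[X]).restrictScalars ℚ) (monomial_injective N)
    (VN x N)).finrank_eq.symm

theorem dim_le (hfin : ∀ k, FiniteDimensional ℚ (G k)) (hev : Per G ev) (k : ℕ) :
    Module.finrank ℚ (Zs k) = Module.finrank ℚ ((G k).map ev.toLinearMap) ∧
      Module.finrank ℚ (Zs k) ≤ Module.finrank ℚ (G k) := by
  have h3 : (G k).map ev.toLinearMap = (Zs k).map ((monomial k : ℝ →ₗ[ℝ] ℝ[X]).restrictScalars ℚ) := by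
    ext p
    exact hev k p
  have h4 : Module.finrank ℚ (Zs k) = Module.finrank ℚ ((G k).map ev.toLinearMap) := by
    rw [h3]
    exact (Submodule.equivMapOfInjective ((monomial k : ℝ →ₗ[ℝ] ℝ[X]).restrictScalars ℚ) (monomial_injective k)
      (Zs k)).finrank_eq
  refine ⟨h4, ?_⟩
  have := hfin k
  rw [h4]
  exact Submodule.finrank_map_le _ _

/-- a period map is injective if the dimensions agree -/
theorem ev_inj (htop : ⨆ k, G k = ⊤) (hfin : ∀ k, FiniteDimensional ℚ (G k)) (hev : Per G ev)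
    (h : ∀ k, Module.finrank ℚ (Zs k) = Module.finrank ℚ (G k)) : Function.Injective ev := by
  have h1 : Function.Injective ev.toLinearMap := by
    refine inj_of_parts htop (fun M y hy => ?_) fun M y hy h0 => ?_
    · obtain ⟨z, _, hz⟩ := (hev M _).1 ⟨y, hy, rfl⟩
      exact ⟨z, hz.symm⟩
    · have := hfin M
      have h2 := LinearMap.finrank_range_add_finrank_ker (ev.toLinearMap.domRestrict (G M))
      rw [LinearMap.range_domRestrict, ← (dim_le hfin hev M).1, h M] at h2
      have h3 : Module.finrank ℚ (LinearMap.ker (ev.toLinearMap.domRestrict (G M))) = 0 := by omega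
      rw [Submodule.finrank_eq_zero, LinearMap.ker_eq_bot'] at h3
      exact congrArg Subtype.val (h3 ⟨y, hy⟩ h0)
  exact h1

end Tensor

end Pool.Agent.Q189.ST
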